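import Pool.Agent.TH794.QD.Lap

/-! Existence of the evolution for arbitrary real potentials. -/

set_option autoImplicit false
set_option linter.unusedSectionVars false
set_option linter.unusedVariables false

open scoped BigOperators Topology
open MeasureTheory Filter Set

namespace Pool.Agent.X133.QP

open Pool.Agent.W788.LD.Spec (S symm)
open Pool.Agent.H4R2.LO (Zd)
open Pool.Agent.TH794.QD

variable {d : ℕ}

/-- the weight -/
noncomputable def wt (x : Zd d) : ℝ := ∏ i, Real.exp (-|(x i : ℝ)|)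

theorem wt_pos (x : Zd d) : 0 < wt x := Finset.prod_pos fun i _ => Real.exp_pos _

theorem wt_exp (x : Zd d) : wt x = Real.exp (-∑ i, |(x i : ℝ)|) := by
  unfold wt
  rw [← Real.exp_sum, Finset.sum_neg_distrib]

theorem wt_nb (x : Zd d) (i : Fin d) (e : ℤ) (he : |(e : ℝ)| ≤ 1) :
    wt (x + Pi.single i e) ≤ Real.exp 1 * wt x := by
  rw [wt_exp, wt_exp, ← Real.exp_add]
  apply Real.exp_le_exp.2
  have h1 : ∑ j, |(x j : ℝ)| ≤ ∑ j, (|((x + Pi.single i e : Zd d) j : ℝ)| +
      |((Pi.single i e : Zd d) j : ℝ)|) := by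
    apply Finset.sum_le_sum
    intro j _
    have h2 : (x j : ℝ) = ((x + Pi.single i e : Zd d) j : ℝ) - ((Pi.single i e : Zd d) j : ℝ) := by
      rw [Pi.add_apply]
      push_cast
      ring
    conv_lhs => rw [h2]
    exact abs_sub _ _
  rw [Finset.sum_add_distrib] at h1
  have h3 : ∑ j, |((Pi.single i e : Zd d) j : ℝ)| ≤ 1 := by
    rw [Finset.sum_eq_single i]
    · rw [Pi.single_eq_same]
      exact he
    · intro j _ hj
      rw [Pi.single_eq_of_ne hj]
      simp
    · intro h
      exact absurd (Finset.mem_univ i) h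
  linarith

theorem summ_prod (f : ℤ → ℝ) (hf0 : ∀ j, 0 ≤ f j) (hf : Summable f) :
    Summable fun x : Fin d → ℤ => ∏ i, f (x i) := by
  classical
  refine summable_of_sum_le (c := (∑' j, f j) ^ d) (fun x => Finset.prod_nonneg fun i _ => hf0 _)
    fun F => ?_
  have h1 : F ⊆ Fintype.piFinset fun i => F.image fun x => x i := by
    intro x hx
    rw [Fintype.mem_piFinset]
    exact fun i => Finset.mem_image_of_mem _ hx
  calc ∑ x ∈ F, ∏ i, f (x i) ≤
        ∑ x ∈ Fintype.piFinset fun i => F.image fun x => x i, ∏ i, f (x i) :=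
        Finset.sum_le_sum_of_subset_of_nonneg h1 fun x _ _ => Finset.prod_nonneg fun i _ => hf0 _
    _ = ∏ i, ∑ j ∈ F.image (fun x => x i), f j := (Finset.prod_univ_sum _ _).symm
    _ ≤ ∏ _i : Fin d, ∑' j, f j := Finset.prod_le_prod
        (fun i _ => Finset.sum_nonneg fun j _ => hf0 j) fun i _ =>
          hf.sum_le_tsum _ fun j _ => hf0 j
    _ = _ := by simp

theorem summ_wt : Summable fun x : Zd d => wt x ^ 2 := by
  have h0 : Summable fun n : ℕ => Real.exp (-2) ^ n :=
    summable_geometric_of_lt_one (Real.exp_pos _).le (by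
      rw [Real.exp_lt_one_iff]
      norm_num)
  have h1 : Summable fun j : ℤ => Real.exp (-|(j : ℝ)|) ^ 2 := by
    have h2 : ∀ n : ℕ, Real.exp (-|(n : ℝ)|) ^ 2 = Real.exp (-2) ^ n := by
      intro n
      rw [← Real.exp_nat_mul, ← Real.exp_nat_mul, abs_of_nonneg (Nat.cast_nonneg n)]
      congr 1
      push_cast
      ring
    apply Summable.of_nat_of_neg
    · refine h0.congr fun n => ?_
      push_cast
      exact (h2 n).symm
    · refine h0.congr fun n => ?_
      push_cast
      rw [abs_neg]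
      exact (h2 n).symm
  have h3 := summ_prod (d := d) (fun j : ℤ => Real.exp (-|(j : ℝ)|) ^ 2) (fun j => by positivity) h1
  refine h3.congr fun x => ?_
  unfold wt
  rw [Finset.prod_pow]

/-- the constant -/
noncomputable def Kd (d : ℕ) : ℝ := 2 * d * Real.exp 1

theorem Kd_nonneg (d : ℕ) : 0 ≤ Kd d := by
  unfold Kd
  positivity

theorem S_bd (u : Zd d → ℂ) (C : ℝ) (hC : 0 ≤ C) (h : ∀ x, ‖u x‖ ≤ C * wt x) (x : Zd d) :
    ‖S u x‖ ≤ C * (Kd d * wt x) := by
  unfold S
  have h1 : ∀ i : Fin d, ‖u (x + Pi.single i 1) + u (x - Pi.single i 1)‖ ≤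
      2 * (C * (Real.exp 1 * wt x)) := by
    intro i
    refine (norm_add_le _ _).trans ?_
    have h2 := (h (x + Pi.single i 1)).trans (mul_le_mul_of_nonneg_left
      (wt_nb x i 1 (by simp)) hC)
    have h3 : x - Pi.single i 1 = x + Pi.single i (-1) := by
      rw [sub_eq_add_neg, ← Pi.single_neg]
    have h5 : wt (x - Pi.single i 1) ≤ Real.exp 1 * wt x := by
      rw [h3]
      exact wt_nb x i (-1) (by simp)
    have h4 := (h (x - Pi.single i 1)).trans (mul_le_mul_of_nonneg_left h5 hC)
    linarith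
  refine (norm_sum_le _ _).trans ((Finset.sum_le_sum fun i _ => h1 i).trans (le_of_eq ?_))
  rw [Finset.sum_const, Finset.card_univ, Fintype.card_fin, nsmul_eq_mul]
  unfold Kd
  ring

/-- the terms of the Dyson series -/
noncomputable def Dy (V : Zd d → ℝ) (a : Zd d) : ℕ → ℝ → Zd d → ℂ
  | 0 => fun t x => if x = a then Complex.exp (-(Complex.I * V x * t)) else 0
  | n + 1 => fun t x => Complex.exp (-(Complex.I * V x * t)) *
      ∫ s in (0 : ℝ)..t, Complex.exp (Complex.I * V x * s) * (Complex.I * S (Dy V a n s) x)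

/-- the previous term -/
noncomputable def Dm (V : Zd d → ℝ) (a : Zd d) : ℕ → ℝ → Zd d → ℂ
  | 0 => fun _ _ => 0
  | n + 1 => Dy V a n

section

variable (V : Zd d → ℝ) (a : Zd d)

theorem e_deriv (v : ℝ) (t : ℝ) : HasDerivAt (fun t : ℝ => Complex.exp (-(Complex.I * v * t)))
    (-(Complex.I * v) * Complex.exp (-(Complex.I * v * t))) t := by
  have h1 : HasDerivAt (fun t : ℝ => -(Complex.I * v * (t : ℂ))) (-(Complex.I * v * 1)) t :=
    ((Complex.ofRealCLM.hasDerivAt (x := t)).const_mul _).neg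
  have h2 := h1.cexp
  refine h2.congr_deriv ?_
  rw [mul_one, mul_comm]

theorem S_cont (u : ℝ → Zd d → ℂ) (h : ∀ y, Continuous fun t => u t y) (x : Zd d) :
    Continuous fun t => S (u t) x := by
  unfold S
  exact continuous_finsetSum _ fun i _ => (h _).add (h _)

theorem dy_succ_deriv (n : ℕ) (h : ∀ y, Continuous fun t => Dy V a n t y) (x : Zd d) (t : ℝ) :
    HasDerivAt (fun t => Dy V a (n + 1) t x)
      (-(Complex.I * V x) * Dy V a (n + 1) t x + Complex.I * S (Dy V a n t) x) t := by
  have hc : Continuous fun s : ℝ => Complex.exp (Complex.I * V x * s) *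
      (Complex.I * S (Dy V a n s) x) := by
    have := S_cont _ h x
    fun_prop
  have h1 := (hc.integral_hasStrictDerivAt 0 t).hasDerivAt
  have h2 := (e_deriv (V x) t).mul h1
  refine h2.congr_deriv ?_
  have h3 : Complex.exp (-(Complex.I * V x * t)) * Complex.exp (Complex.I * V x * t) = 1 := by
    rw [← Complex.exp_add, neg_add_cancel, Complex.exp_zero]
  show _ = -(Complex.I * V x) * (Complex.exp (-(Complex.I * V x * t)) *
      ∫ s in (0 : ℝ)..t, Complex.exp (Complex.I * V x * s) * (Complex.I * S (Dy V a n s) x)) +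
      Complex.I * S (Dy V a n t) x
  linear_combination (Complex.I * S (Dy V a n t) x) * h3

theorem dy_cont (n : ℕ) : ∀ x, Continuous fun t => Dy V a n t x := by
  induction n with
  | zero =>
    intro x
    unfold Dy
    split_ifs
    · fun_prop
    · exact continuous_const
  | succ n ih =>
    intro x
    exact continuous_iff_continuousAt.2 fun t => (dy_succ_deriv V a n ih x t).continuousAt

theorem dy_deriv (n : ℕ) (x : Zd d) (t : ℝ) : HasDerivAt (fun t => Dy V a n t x)
    (-(Complex.I * V x) * Dy V a n t x + Complex.I * S (Dm V a n t) x) t := by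
  cases n with
  | zero =>
    have h0 : S (Dm V a 0 t) x = 0 := by
      unfold S Dm
      simp
    rw [h0, mul_zero, add_zero]
    unfold Dy
    split_ifs
    · exact e_deriv (V x) t
    · rw [mul_zero]
      exact hasDerivAt_const _ _
  | succ n => exact dy_succ_deriv V a n (dy_cont V a n) x t

theorem dy_bd (n : ℕ) : ∀ (t : ℝ) (x : Zd d),
    ‖Dy V a n t x‖ ≤ (wt a)⁻¹ * ((Kd d * |t|) ^ n / n.factorial) * wt x := by
  have ha := wt_pos a
  induction n with
  | zero =>
    intro t x
    unfold Dy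
    split_ifs with h
    · rw [Complex.norm_exp, h]
      simp
      rw [inv_mul_cancel₀ ha.ne']
    · rw [norm_zero]
      have := wt_pos x
      positivity
  | succ n ih =>
    intro t x
    have hK := Kd_nonneg d
    have hx := wt_pos x
    have h1 : ∀ v s : ℝ, ‖Complex.exp (-(Complex.I * v * s))‖ = 1 := by
      intro v s
      rw [Complex.norm_exp]
      simp
    have h1' : ∀ v s : ℝ, ‖Complex.exp (Complex.I * v * s)‖ = 1 := by
      intro v s
      rw [Complex.norm_exp]
      simp
    show ‖Complex.exp (-(Complex.I * V x * t)) *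
      ∫ s in (0 : ℝ)..t, Complex.exp (Complex.I * V x * s) * (Complex.I * S (Dy V a n s) x)‖ ≤ _
    rw [norm_mul, h1, one_mul]
    have h2 : ∀ s : ℝ, ‖Complex.exp (Complex.I * V x * s) * (Complex.I * S (Dy V a n s) x)‖ ≤
        (wt a)⁻¹ * (Kd d ^ (n + 1) / n.factorial) * wt x * |s - 0| ^ n := by
      intro s
      rw [norm_mul, norm_mul, h1', one_mul, Complex.norm_I, one_mul, sub_zero]
      refine (S_bd (Dy V a n s) ((wt a)⁻¹ * ((Kd d * |s|) ^ n / n.factorial)) (by positivity)
        (ih s) x).trans (le_of_eq ?_)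
      rw [mul_pow]
      ring
    refine intervalIntegral.norm_integral_le_integral_norm_uIoc.trans ?_
    have hi : IntegrableOn (fun s : ℝ => (wt a)⁻¹ * (Kd d ^ (n + 1) / n.factorial) * wt x *
        |s - 0| ^ n) (Set.uIoc 0 t) := by
      have hc : Continuous fun s : ℝ => (wt a)⁻¹ * (Kd d ^ (n + 1) / n.factorial) * wt x *
        |s - 0| ^ n := by fun_prop
      exact (hc.intervalIntegrable 0 t).def'
    calc ∫ s in Set.uIoc 0 t, ‖Complex.exp (Complex.I * V x * s) *
          (Complex.I * S (Dy V a n s) x)‖ ≤ ∫ s in Set.uIoc 0 t,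
          (wt a)⁻¹ * (Kd d ^ (n + 1) / n.factorial) * wt x * |s - 0| ^ n := by
          apply integral_mono_of_nonneg (Filter.Eventually.of_forall fun s => norm_nonneg _) hi
            (Filter.Eventually.of_forall h2)
      _ = (wt a)⁻¹ * (Kd d ^ (n + 1) / n.factorial) * wt x * (|t - 0| ^ (n + 1) / (n + 1)) := by
          rw [integral_const_mul, integral_pow_abs_sub_uIoc]
      _ = _ := by
          rw [sub_zero, mul_pow, Nat.factorial_succ]
          push_cast
          have h3 : ((n.factorial : ℕ) : ℝ) ≠ 0 := by exact_mod_cast n.factorial_ne_zero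
          have h4 : ((n : ℝ) + 1) ≠ 0 := by positivity
          field_simp

/-- the sum of the series -/
noncomputable def Ps (t : ℝ) (x : Zd d) : ℂ := ∑' n, Dy V a n t x

/-- the growth -/
noncomputable def Mt (d : ℕ) (T : ℝ) : ℝ := ∑' n : ℕ, (Kd d * T) ^ n / n.factorial

theorem dy_bd2 (T : ℝ) (n : ℕ) (t : ℝ) (ht : |t| ≤ T) (x : Zd d) :
    ‖Dy V a n t x‖ ≤ (wt a)⁻¹ * wt x * ((Kd d * T) ^ n / n.factorial) := by
  have hK := Kd_nonneg d
  have ha := wt_pos a
  have hx := wt_pos x
  calc _ ≤ (wt a)⁻¹ * ((Kd d * |t|) ^ n / n.factorial) * wt x := dy_bd V a n t x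
    _ ≤ (wt a)⁻¹ * ((Kd d * T) ^ n / n.factorial) * wt x := by gcongr
    _ = _ := by ring

theorem dy_summ (t : ℝ) (x : Zd d) : Summable fun n => Dy V a n t x :=
  Summable.of_norm_bounded ((Real.summable_pow_div_factorial (Kd d * |t|)).mul_left _)
    fun n => dy_bd2 V a |t| n t le_rfl x

theorem Mt_nonneg (d : ℕ) (T : ℝ) (hT : 0 ≤ T) : 0 ≤ Mt d T :=
  tsum_nonneg fun n => by
    have := Kd_nonneg d
    positivity

theorem ps_bd (T : ℝ) (t : ℝ) (ht : |t| ≤ T) (x : Zd d) :
    ‖Ps V a t x‖ ≤ (wt a)⁻¹ * Mt d T * wt x := by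
  have h1 := tsum_of_norm_bounded
    (((Real.summable_pow_div_factorial (Kd d * T)).hasSum.mul_left ((wt a)⁻¹ * wt x)))
    fun n => dy_bd2 V a T n t ht x
  refine h1.trans (le_of_eq ?_)
  unfold Mt
  ring

theorem S_tsum (t : ℝ) (x : Zd d) : HasSum (fun n => S (Dy V a n t) x) (S (Ps V a t) x) := by
  unfold S
  exact hasSum_sum fun i _ => (dy_summ V a t _).hasSum.add (dy_summ V a t _).hasSum

theorem ps_deriv (t : ℝ) (x : Zd d) : HasDerivAt (fun t => Ps V a t x)
    (-(Complex.I * V x) * Ps V a t x + Complex.I * S (Ps V a t) x) t := by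
  obtain ⟨T, hT⟩ : ∃ T, T = |t| + 1 := ⟨_, rfl⟩
  have hT0 : 0 ≤ T := by rw [hT]; positivity
  have hK := Kd_nonneg d
  have ha := wt_pos a
  have hx := wt_pos x
  obtain ⟨um, hum⟩ : ∃ um : ℕ → ℝ, um = fun n => match n with
    | 0 => 0
    | n + 1 => (Kd d * T) ^ n / n.factorial := ⟨_, rfl⟩
  have hums : Summable um := by
    refine (summable_nat_add_iff 1).1 ?_
    rw [hum]
    exact Real.summable_pow_div_factorial (Kd d * T)
  have hmem : t ∈ Metric.ball (0 : ℝ) T := by
    rw [Metric.mem_ball, dist_zero_right, Real.norm_eq_abs, hT]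
    linarith
  have h1 := hasDerivAt_tsum_of_isPreconnected (g := fun n t => Dy V a n t x)
    (g' := fun n t => -(Complex.I * V x) * Dy V a n t x + Complex.I * S (Dm V a n t) x)
    (u := fun n => |V x| * ((wt a)⁻¹ * wt x * ((Kd d * T) ^ n / n.factorial)) +
      (wt a)⁻¹ * (Kd d * wt x) * um n) (t := Metric.ball (0 : ℝ) T) (y₀ := t) (y := t)
    (((Real.summable_pow_div_factorial (Kd d * T)).mul_left _).mul_left _ |>.add
      (hums.mul_left _)) Metric.isOpen_ball (convex_ball _ _).isPreconnected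
    (fun n y _ => dy_deriv V a n x y) (fun n y hy => by
      have hy' : |y| ≤ T := by
        rw [Metric.mem_ball, dist_zero_right, Real.norm_eq_abs] at hy
        exact hy.le
      refine (norm_add_le _ _).trans (add_le_add ?_ ?_)
      · rw [norm_mul, norm_neg, norm_mul, Complex.norm_I, one_mul, Complex.norm_real,
          Real.norm_eq_abs]
        exact mul_le_mul_of_nonneg_left (dy_bd2 V a T n y hy' x) (abs_nonneg _)
      · rw [norm_mul, Complex.norm_I, one_mul]
        cases n with
        | zero =>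
          have h0 : S (Dm V a 0 y) x = 0 := by
            unfold S Dm
            simp
          rw [h0, norm_zero, hum]
          simp
        | succ n =>
          have h2 := S_bd (Dy V a n y) ((wt a)⁻¹ * ((Kd d * T) ^ n / n.factorial)) (by positivity)
            (fun z => (dy_bd2 V a T n y hy' z).trans (le_of_eq (by ring))) x
          rw [hum]
          refine h2.trans (le_of_eq ?_)
          ring) hmem (dy_summ V a t x) hmem
  refine h1.congr_deriv ?_
  have h3 : HasSum (fun n => S (Dm V a n t) x) (S (Ps V a t) x) := by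
    have h4 : HasSum (fun n => S (Dm V a (n + 1) t) x) (S (Ps V a t) x) := S_tsum V a t x
    have h5 := (hasSum_nat_add_iff (f := fun n => S (Dm V a n t) x) 1).1 h4
    have h0 : S (Dm V a 0 t) x = 0 := by
      unfold S Dm
      simp
    simpa [h0] using h5
  exact (((dy_summ V a t x).hasSum.mul_left _).add (h3.mul_left _)).tsum_eq

theorem ps_zero (x : Zd d) : Ps V a 0 x = if x = a then 1 else 0 := by
  unfold Ps
  rw [tsum_eq_single 0]
  · unfold Dy
    simp
  · intro n hn
    cases n with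
    | zero => exact absurd rfl hn
    | succ n =>
      show Complex.exp (-(Complex.I * V x * ((0 : ℝ) : ℂ))) *
        ∫ s in (0 : ℝ)..0, Complex.exp (Complex.I * V x * s) * (Complex.I * S (Dy V a n s) x) = 0
      rw [intervalIntegral.integral_same, mul_zero]

theorem ps_summ (t : ℝ) : Summable fun x => ‖Ps V a t x‖ ^ 2 := by
  refine Summable.of_nonneg_of_le (fun x => sq_nonneg _) (fun x => ?_)
    (summ_wt.mul_left (((wt a)⁻¹ * Mt d |t|) ^ 2))
  rw [← mul_pow]
  exact pow_le_pow_left₀ (norm_nonneg _) (ps_bd V a |t| t le_rfl x) 2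

theorem ps_norm_deriv (t : ℝ) : HasDerivAt (fun t => ∑' x, ‖Ps V a t x‖ ^ 2) 0 t := by
  obtain ⟨T, hT⟩ : ∃ T, T = |t| + 1 := ⟨_, rfl⟩
  have hT0 : 0 ≤ T := by rw [hT]; positivity
  have hK := Kd_nonneg d
  have ha := wt_pos a
  have hM := Mt_nonneg d T hT0
  obtain ⟨C, hC⟩ : ∃ C, C = (wt a)⁻¹ * Mt d T := ⟨_, rfl⟩
  have hC0 : 0 ≤ C := by rw [hC]; positivity
  have hmem : t ∈ Metric.ball (0 : ℝ) T := by
    rw [Metric.mem_ball, dist_zero_right, Real.norm_eq_abs, hT]
    linarith
  have hder : ∀ (x : Zd d) (y : ℝ), HasDerivAt (fun t => ‖Ps V a t x‖ ^ 2)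
      (-2 * ((starRingEnd ℂ) (Ps V a y x) * S (Ps V a y) x).im) y := by
    intro x y
    have h1 := (ps_deriv V a y x).norm_sq
    refine h1.congr_deriv ?_
    rw [Complex.inner]
    obtain ⟨p, hp⟩ : ∃ p, p = Ps V a y x := ⟨_, rfl⟩
    obtain ⟨q, hq⟩ : ∃ q, q = S (Ps V a y) x := ⟨_, rfl⟩
    rw [← hp, ← hq]
    simp only [Complex.mul_re, Complex.mul_im, Complex.add_re, Complex.add_im, Complex.neg_re,
      Complex.neg_im, Complex.I_re, Complex.I_im, Complex.conj_re, Complex.conj_im,
      Complex.ofReal_re, Complex.ofReal_im]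
    ring
  have h1 := hasDerivAt_tsum_of_isPreconnected (g := fun (x : Zd d) t => ‖Ps V a t x‖ ^ 2)
    (g' := fun x t => -2 * ((starRingEnd ℂ) (Ps V a t x) * S (Ps V a t) x).im)
    (u := fun x => 2 * (C ^ 2 * Kd d) * wt x ^ 2) (t := Metric.ball (0 : ℝ) T) (y₀ := t) (y := t)
    (summ_wt.mul_left _) Metric.isOpen_ball (convex_ball _ _).isPreconnected
    (fun x y _ => hder x y) (fun x y hy => by
      have hy' : |y| ≤ T := by
        rw [Metric.mem_ball, dist_zero_right, Real.norm_eq_abs] at hy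
        exact hy.le
      have hx := wt_pos x
      have h2 : ‖Ps V a y x‖ ≤ C * wt x := by
        rw [hC]
        exact ps_bd V a T y hy' x
      have h3 := S_bd (Ps V a y) C hC0 (fun z => by
        rw [hC]
        exact ps_bd V a T y hy' z) x
      rw [Real.norm_eq_abs, abs_mul]
      have h4 : |((starRingEnd ℂ) (Ps V a y x) * S (Ps V a y) x).im| ≤
          C * wt x * (C * (Kd d * wt x)) := by
        refine (Complex.abs_im_le_norm _).trans ?_
        rw [norm_mul, Complex.norm_conj]
        gcongr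
      have h5 : |(-2 : ℝ)| = 2 := by norm_num
      rw [h5]
      calc 2 * |((starRingEnd ℂ) (Ps V a y x) * S (Ps V a y) x).im| ≤
            2 * (C * wt x * (C * (Kd d * wt x))) := by gcongr
        _ = _ := by ring) hmem (ps_summ V a t) hmem
  refine h1.congr_deriv ?_
  obtain ⟨s1, s2, s3⟩ := symm (Ps V a t) (Ps V a t) (ps_summ V a t) (ps_summ V a t)
  rw [tsum_mul_left]
  have h6 : ∑' x, ((starRingEnd ℂ) (Ps V a t x) * S (Ps V a t) x).im =
      (∑' x, (starRingEnd ℂ) (Ps V a t x) * S (Ps V a t) x).im := (Complex.im_tsum s1).symm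
  have h7 : (starRingEnd ℂ) (∑' x, (starRingEnd ℂ) (Ps V a t x) * S (Ps V a t) x) =
      ∑' x, (starRingEnd ℂ) (Ps V a t x) * S (Ps V a t) x := by
    rw [Complex.conj_tsum]
    rw [s3]
    refine tsum_congr fun x => ?_
    rw [map_mul, Complex.conj_conj, mul_comm]
  have h8 := Complex.conj_eq_iff_im.1 h7
  rw [h6, h8, mul_zero]

/-- **existence of the evolution for arbitrary real potentials** -/
theorem exists_sol' : ∃ ψ : ℝ → Zd d → ℂ, Sol d V a ψ := by
  refine ⟨Ps V a, ⟨ps_zero V a, fun s x => (ps_deriv V a s x).congr_deriv (by ring), fun s => ?_⟩⟩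
  have h1 : ∀ t, ∑' x, ‖Ps V a t x‖ ^ 2 = 1 := by
    intro t
    have h2 : Differentiable ℝ fun t => ∑' x, ‖Ps V a t x‖ ^ 2 := fun t =>
      (ps_norm_deriv V a t).differentiableAt
    have h3 : ∑' x, ‖Ps V a t x‖ ^ 2 = ∑' x, ‖Ps V a 0 x‖ ^ 2 :=
      is_const_of_deriv_eq_zero h2 (fun t => (ps_norm_deriv V a t).deriv) t 0
    rw [h3, tsum_eq_single a]
    · rw [ps_zero, if_pos rfl]
      simp
    · intro x hx
      rw [ps_zero, if_neg hx]
      simp
  have h4 := (ps_summ V a s).hasSum
  rwa [h1 s] at h4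

end

end Pool.Agent.X133.QP
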