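import Pool.Agent.X133.QP.Abs
import Pool.Agent.X133.LL.Num
import Pool.Agent.TH794.QD.Evo

/-! Diffusion of a particle started at a site, dimension at least three. -/

set_option autoImplicit false
set_option linter.unusedSectionVars false
set_option linter.unusedVariables false

open scoped BigOperators Topology
open MeasureTheory Filter Set

namespace Pool.Agent.X133.QP

open Pool.Agent.W788.BK
open Pool.Agent.H4R2.LO (Zd)
open Pool.Agent.W788.BK.Num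
open Pool.Agent.TH794.QD
open Pool.Agent.TH794.QE
open Pool.Agent.TH794.HK
open Pool.Agent.X133.LL

/-- the bulk of the spectrum -/
def Bd3 (d : ℕ) (κ : ℝ) : Set ℝ := {E | |E| ≤ 2 * d - κ}

theorem Bd3_meas (d : ℕ) (κ : ℝ) : MeasurableSet (Bd3 d κ) :=
  measurableSet_le (by fun_prop) (by fun_prop)

theorem mass3 (hO : S_OSC) (d : ℕ) (hd : 3 ≤ d) :
    (∀ ε : ℝ, 0 < ε → ∃ κ : ℝ, 0 < κ ∧ κ ≤ 1 ∧
      Real.pi - ε ≤ ∫ E in Bd3 d κ, (GF (F0 d) (E : ℂ)).im) ∧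
    (∫ E in Set.Icc (-(2 * d : ℝ)) (2 * d), (GF (F0 d) (E : ℂ)).im) = Real.pi := by
  have hH : ∀ E : ℝ, ∀ t : ℝ, 0 < t → t ≤ 1 →
      |(GF (F0 d) ((E : ℂ) + (t : ℂ) * Complex.I)).im - (GF (F0 d) (E : ℂ)).im| ≤
        CH d * t ^ (1 / 8 : ℝ) := by
    intro E t ht ht1
    have h1 := hol0 hO d hd ((E : ℂ) + (t : ℂ) * Complex.I) (E : ℂ) (by simp [ht.le]) (by simp)
    rw [add_sub_cancel_left, norm_mul, Complex.norm_I, mul_one, Complex.norm_real,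
      Real.norm_of_nonneg ht.le] at h1
    rw [← Complex.sub_im]
    exact (Complex.abs_im_le_norm _).trans h1
  have hcont : ∀ P : Set ℝ, ContinuousOn (fun E : ℝ => (GF (F0 d) (E : ℂ)).im) P := by
    intro P
    refine hol_cont P (fun E : ℝ => GF (F0 d) (E : ℂ)) (CH d) fun E _ E' _ => ?_
    have h1 := hol0 hO d hd (E : ℂ) (E' : ℂ) (by simp) (by simp)
    rwa [← Complex.ofReal_sub, Complex.norm_real, Real.norm_eq_abs] at h1
  have hi : ∀ R : ℝ, IntegrableOn (fun E : ℝ => (GF (F0 d) (E : ℂ)).im) (Set.Icc (-R) R) :=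
    fun R => (hcont _).integrableOn_compact isCompact_Icc
  have hnn : ∀ E : ℝ, 0 ≤ (GF (F0 d) (E : ℂ)).im := fun E =>
    (GF_im hO d hd (E : ℂ) (by simp)).1.trans (GF_im hO d hd (E : ℂ) (by simp)).2
  have hsub : ∀ κ : ℝ, 0 < κ → Bd3 d κ ⊆ Set.Icc (-(2 * d : ℝ)) (2 * d) := by
    intro κ hκ E hE
    have h1 : |E| ≤ 2 * d - κ := hE
    exact abs_le.1 (by linarith)
  have hlow : ∀ ε : ℝ, 0 < ε → ∃ κ : ℝ, 0 < κ ∧ κ ≤ 1 ∧
      Real.pi - ε ≤ ∫ E in Bd3 d κ, (GF (F0 d) (E : ℂ)).im := by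
    intro ε hε
    have hpi := Real.pi_pos
    obtain ⟨n, hn⟩ := ev_mass (d := d) (fun n : ℕ => {k : Fin d → ℝ | |sym k| ≤
      2 * d - 2 * (1 / ((n : ℝ) + 1))}) (fun n => measurableSet_le
        ((sym_cont d).abs.measurable) measurable_const) (fun n m hnm k hk => by
        have h1 : |sym k| ≤ 2 * d - 2 * (1 / ((n : ℝ) + 1)) := hk
        have h2 : 1 / ((m : ℝ) + 1) ≤ 1 / ((n : ℝ) + 1) :=
          one_div_le_one_div_of_le (by positivity) (by exact_mod_cast Nat.succ_le_succ hnm)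
        show |sym k| ≤ 2 * d - 2 * (1 / ((m : ℝ) + 1))
        linarith) (by
        filter_upwards [ae_lt d (by omega)] with k hk
        obtain ⟨n, hn⟩ := exists_nat_one_div_lt (show 0 < (2 * d - |sym k|) / 2 by linarith)
        refine ⟨n, ?_⟩
        show |sym k| ≤ 2 * d - 2 * (1 / ((n : ℝ) + 1))
        linarith) (ε / Real.pi) (by positivity)
    have hκ : 0 < 1 / ((n : ℝ) + 1) := by positivity
    refine ⟨1 / ((n : ℝ) + 1), hκ, ?_, ?_⟩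
    · rw [div_le_one (by positivity)]
      have : (0 : ℝ) ≤ n := Nat.cast_nonneg _
      linarith
    · have h1 := mass d (Bd3 d (1 / ((n : ℝ) + 1))) (Bd3_meas _ _) (2 * d) (1 / ((n : ℝ) + 1))
        (CH d) (hsub _ hκ) hκ (CH_nonneg d) {k : Fin d → ℝ | |sym k| ≤
          2 * d - 2 * (1 / ((n : ℝ) + 1))} (measurableSet_le
          ((sym_cont d).abs.measurable) measurable_const) (fun k hk E hE => by
          have h2 : |sym k| ≤ 2 * d - 2 * (1 / ((n : ℝ) + 1)) := hk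
          have h3 := abs_sub_abs_le_abs_sub E (sym k)
          show |E| ≤ 2 * d - 1 / ((n : ℝ) + 1)
          linarith) _ ((hi (2 * d)).mono_set (hsub _ hκ)) (fun E _ t ht ht1 => hH E t ht ht1)
      refine le_trans ?_ h1
      have h2 : (1 - ε / Real.pi) * Real.pi = Real.pi - ε := by field_simp
      rw [← h2]
      exact mul_le_mul_of_nonneg_right hn hpi.le
  refine ⟨hlow, le_antisymm ?_ ?_⟩
  · exact mass_up d _ measurableSet_Icc (2 * d) (CH d) le_rfl _ (hi (2 * d))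
      (fun E _ t ht ht1 => hH E t ht ht1)
  · apply le_of_forall_pos_le_add
    intro ε hε
    obtain ⟨κ, hκ, -, h1⟩ := hlow ε hε
    have h2 := setIntegral_mono_set (hi (2 * d)) (Filter.Eventually.of_forall fun E => hnn E)
      (Filter.Eventually.of_forall fun E hE => hsub κ hκ hE :
        (Bd3 d κ : Set ℝ) ≤ᵐ[volume] Set.Icc (-(2 * d : ℝ)) (2 * d))
    linarith

/-- the statement for one site -/
def ConclP (d : ℕ) (W : Zd d → ℝ) (a : Zd d) (Ω : Set ℝ) (φ : ℝ → ℝ) (A ε c s V : ℝ)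
    (g0 g1 : ℝ → ℝ) : Prop :=
  ∀ ψ : ℝ → Zd d → ℂ, Sol d W a ψ → ∀ p : Fin d → ℝ, ∑ i, p i ^ 2 ≤ A * (c ^ 2 * s) →
    ‖∫ t in Ioi (0 : ℝ), ((s * φ (s * t) : ℝ) : ℂ) *
      (∑' x, ph p (x - a) * ((‖ψ t x‖ ^ 2 : ℝ) : ℂ) -
        ((1 / Real.pi * ∫ E in Ω, g0 E * Real.exp (-(2 * g1 E / (V * g0 E ^ 2) *
          (∑ i, p i ^ 2) / c ^ 2 * t)) : ℝ) : ℂ))‖ ≤ ε

theorem finP3 (hES : S_ES) (hTH : S_THIRD) (hFL : S_FLUCT) (hIN : S_INV)
    (hSU : S_SUP) (hQB : S_QB) (hLO : S_LOW) (hAD : S_ADM) (hFA : S_FAC) (hO : S_OSC)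
    (d : ℕ) (hd : 3 ≤ d) (φ : ℝ → ℝ) (hφ : Continuous φ) (hφs : HasCompactSupport φ)
    (b v ε A : ℝ) (hb : 0 < b) (hv : 0 < v) (hε : 0 < ε) (hA : 0 < A) :
    ∃ lam0 : ℝ, 0 < lam0 ∧ ∀ lam : ℝ, 0 < lam → lam ≤ lam0 →
    ∀ (μ : Measure ℝ), IsProbabilityMeasure μ → (∀ᵐ s ∂μ, |s| ≤ b) →
    ∀ Mn V : ℝ, ∫ s, s ∂μ = Mn → ∫ s, (s - Mn) ^ 2 ∂μ = V → v ≤ V →
      ∃ G : Set (Zd d → ℝ), MeasurableSet G ∧
        1 - Real.exp (-lam ^ (-(1 / 101) : ℝ)) ≤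
          (Measure.infinitePi fun _ : Zd d => μ).real G ∧
        ∀ ω ∈ G, ∀ a : Zd d, ‖a‖ ≤ Real.exp (lam ^ (-(1 / 101) : ℝ)) →
          (∃ ψ, Sol d (fun x => 2 * d + lam * ω x) a ψ) ∧
          ∀ s : ℝ, lam ^ (83 / 41 : ℝ) ≤ s → s ≤ lam ^ (151 / 75 : ℝ) →
          ConclP d (fun x => 2 * d + lam * ω x) a (Set.Icc (-(2 * d : ℝ)) (2 * d)) φ A ε lam s V
            (fun E => (GF (F0 d) (E : ℂ)).im) (fun E => (GF (F1 d) (E : ℂ)).im) := by
  obtain ⟨n, δ, hδ, habs⟩ := qp_abs φ hφ hφs ε hε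
  obtain ⟨hlow, htot⟩ := mass3 hO d hd
  obtain ⟨κ, hκ, hκ1, hmass⟩ := hlow (δ / 4) (by positivity)
  obtain ⟨-, hfin⟩ := finN hES hTH hFL hIN hSU hQB hLO hAD hFA hO d hd κ hκ hκ1
  have hd0 : (0 : ℝ) < d := by
    have : 0 < d := by omega
    exact_mod_cast this
  obtain ⟨c0, hc0, hG⟩ := hfin b v (2 * A / v) hb hv (by positivity)
  have hev : ∀ᶠ c in 𝓝[>] (0 : ℝ),
      ((4 * (d : ℝ)) * c ^ (1 / 200 : ℝ) ≤ δ / 4) ∧ (2 * c ^ (1 / 1640 : ℝ) ≤ 1) ∧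
      (((n : ℝ) + 1) * c ^ (1 / 1200 : ℝ) ≤ 1) ∧ (1 * c ^ (1 : ℝ) ≤ c0) := by
    filter_upwards [ev_pow (4 * (d : ℝ)) (δ / 4) (1 / 200) (by positivity) (by norm_num),
      ev_pow 2 1 (1 / 1640) one_pos (by norm_num),
      ev_pow ((n : ℝ) + 1) 1 (1 / 1200) one_pos (by norm_num),
      ev_pow 1 c0 1 hc0 one_pos] with c h1 h2 h3 h4
    exact ⟨h1, h2, h3, h4⟩
  obtain ⟨lam0, hlam0, hev2⟩ := mem_nhdsGT_iff_exists_Ioc_subset.1 hev
  refine ⟨lam0, hlam0, fun c hc hcl μ hμ hμb Mn V hMn hV hvV => ?_⟩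
  obtain ⟨n1, n2, n3, n4⟩ := hev2 ⟨hc, hcl⟩
  rw [one_mul, Real.rpow_one] at n4
  obtain ⟨G, hGm, hGP, hGω⟩ := hG c hc n4 μ hμ hμb Mn V hMn hV hvV
  have hVpos : 0 < V := hv.trans_le hvV
  refine ⟨G, hGm, hGP, fun ω hω a ha => ?_⟩
  obtain ⟨hωb, hprf⟩ := hGω ω hω
  constructor
  · apply exists_sol (fun x => 2 * d + c * ω x) (2 * d + c * b)
    intro x
    have h1 := hωb x
    have h2 : |2 * (d : ℝ) + c * ω x| ≤ |2 * (d : ℝ)| + |c * ω x| := abs_add_le _ _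
    have h3 : |c * ω x| ≤ c * b := by
      rw [abs_mul, abs_of_pos hc]
      gcongr
    have h4 : |2 * (d : ℝ)| = 2 * d := abs_of_pos (by positivity)
    linarith
  intro s hs1 hs2 ψ hψ p hp
  have hs0 : 0 < s := lt_of_lt_of_le (by positivity) hs1
  have hsc1 : 2 * c ^ (81 / 40 : ℝ) ≤ s := by
    have h1 : c ^ (81 / 40 : ℝ) = c ^ (83 / 41 : ℝ) * c ^ (1 / 1640 : ℝ) := by
      rw [← Real.rpow_add hc]
      congr 1
      norm_num
    have h2 : 0 < c ^ (83 / 41 : ℝ) := by positivity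
    calc 2 * c ^ (81 / 40 : ℝ) = c ^ (83 / 41 : ℝ) * (2 * c ^ (1 / 1640 : ℝ)) := by
          rw [h1]; ring
      _ ≤ c ^ (83 / 41 : ℝ) * 1 := by gcongr
      _ ≤ s := by rw [mul_one]; exact hs1
  have hsc2 : ((n : ℝ) + 1) * s ≤ c ^ (161 / 80 : ℝ) := by
    have h1 : c ^ (151 / 75 : ℝ) = c ^ (161 / 80 : ℝ) * c ^ (1 / 1200 : ℝ) := by
      rw [← Real.rpow_add hc]
      congr 1
      norm_num
    have h2 : 0 < c ^ (161 / 80 : ℝ) := by positivity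
    calc ((n : ℝ) + 1) * s ≤ ((n : ℝ) + 1) * c ^ (151 / 75 : ℝ) := by gcongr
      _ = c ^ (161 / 80 : ℝ) * (((n : ℝ) + 1) * c ^ (1 / 1200 : ℝ)) := by rw [h1]; ring
      _ ≤ c ^ (161 / 80 : ℝ) * 1 := by gcongr
      _ = _ := mul_one _
  have hsub : Bd3 d κ ⊆ Set.Icc (-(2 * d : ℝ)) (2 * d) := by
    intro E hE
    have h1 : |E| ≤ 2 * d - κ := hE
    exact abs_le.1 (by linarith)
  have hcont : ∀ F : ℝ → ℂ, (∀ z z' : ℂ, 0 ≤ z.im → 0 ≤ z'.im →
      ‖GF F z - GF F z'‖ ≤ CH d * ‖z - z'‖ ^ (1 / 8 : ℝ)) →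
      ContinuousOn (fun E : ℝ => (GF F (E : ℂ)).im) (Set.Icc (-(2 * d : ℝ)) (2 * d)) := by
    intro F hF
    refine hol_cont _ (fun E : ℝ => GF F (E : ℂ)) (CH d) fun E _ E' _ => ?_
    have h1 := hF (E : ℂ) (E' : ℂ) (by simp) (by simp)
    rwa [← Complex.ofReal_sub, Complex.norm_real, Real.norm_eq_abs] at h1
  have hvolI : volume.real (Bd3 d κ) ≤ 4 * d := by
    calc volume.real (Bd3 d κ) ≤ volume.real (Set.Icc (-(2 * d : ℝ)) (2 * d)) :=
          measureReal_mono hsub (by rw [Real.volume_Icc]; exact ENNReal.ofReal_ne_top)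
      _ = 4 * d := by
          rw [Real.volume_real_Icc_of_le (by linarith)]
          ring
  have hp0 : 0 ≤ ∑ i, p i ^ 2 := Finset.sum_nonneg fun i _ => sq_nonneg _
  have key := habs d (fun x => 2 * d + c * ω x) a ψ hψ p s hs0 (2 * d + c * Mn) (Bd3 d κ)
    (Set.Icc (-(2 * d : ℝ)) (2 * d)) (Bd3_meas d κ) measurableSet_Icc hsub
    (fun E => (GF (F0 d) (E : ℂ)).im) (fun E => (GF (F1 d) (E : ℂ)).im) (c ^ 2 * V) (by positivity)
    (c ^ (1 / 200 : ℝ)) (δ / 4) (4 * d)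
    (lt_of_le_of_lt (measure_mono hsub) (by rw [Real.volume_Icc]; exact ENNReal.ofReal_lt_top))
    hvolI (by positivity)
    (fun E _ => ⟨(GF_im hO d hd (E : ℂ) (by simp)).1,
      (GF_im hO d hd (E : ℂ) (by simp)).1.trans (GF_im hO d hd (E : ℂ) (by simp)).2⟩)
    ((hcont _ (hol0 hO d hd)).integrableOn_compact isCompact_Icc)
    ((hcont _ (hol1 hO d hd)).aestronglyMeasurable measurableSet_Icc)
    (fun j hj E hE p' hp' => by
      have hjn : (j : ℝ) ≤ n := by exact_mod_cast hj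
      have hj0 : (0 : ℝ) ≤ j := Nat.cast_nonneg _
      obtain ⟨η, hη⟩ : ∃ η, η = ((j : ℝ) + 1) * s / 2 := ⟨_, rfl⟩
      have hη1 : s / 2 ≤ η := by
        rw [hη]
        nlinarith
      have hη2 : η ≤ c ^ (161 / 80 : ℝ) := by
        rw [hη]
        have h1 : ((j : ℝ) + 1) * s ≤ ((n : ℝ) + 1) * s := by gcongr
        have h2 : 0 ≤ ((j : ℝ) + 1) * s := by positivity
        linarith
      have hη0 : 0 < η := by linarith
      rw [← hη]
      have hRs : Rs d (fun x => 2 * d + c * ω x) a ((2 * d + c * Mn) - E) η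
          (fun x => Complex.I * La ψ ((2 * d + c * Mn) - E) η x) :=
        ⟨La_sum hψ _ η hη0, La_eq hψ _ η hη0⟩
      have hpp : ∑ i, p' i ^ 2 ≤ 2 * A / v * (η * (c ^ 2 * V)) := by
        have h1 : A * (c ^ 2 * s) ≤ 2 * A / v * (η * (c ^ 2 * V)) := by
          rw [div_mul_eq_mul_div, le_div_iff₀ hv]
          calc A * (c ^ 2 * s) * v = 2 * A * (s / 2 * (c ^ 2 * v)) := by ring
            _ ≤ 2 * A * (η * (c ^ 2 * V)) := by gcongr
        rcases hp' with h | h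
        · rw [h]
          exact hp.trans h1
        · rw [h]
          refine le_trans (le_of_eq ?_) (le_trans (by positivity : (0 : ℝ) ≤ A * (c ^ 2 * s)) h1)
          simp
      have hE' : (2 * (d : ℝ) + c * Mn) - ((2 * d + c * Mn) - E) = E := by ring
      have hmain := hprf a ha ((2 * d + c * Mn) - E) (by rw [hE']; exact hE) η (by linarith) hη2
        _ hRs p' hpp
      rw [hE'] at hmain
      have hI : ∀ x, ‖Complex.I * La ψ ((2 * d + c * Mn) - E) η x‖ =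
          ‖La ψ ((2 * d + c * Mn) - E) η x‖ := by
        intro x
        rw [norm_mul, Complex.norm_I, one_mul]
      simp only [hI] at hmain
      exact hmain)
    htot.le hmass (by linarith)
  have hrate : ∀ E t : ℝ, 2 * (GF (F1 d) (E : ℂ)).im / (GF (F0 d) (E : ℂ)).im ^ 2 *
      ((∑ i, p i ^ 2) / (c ^ 2 * V)) * t = 2 * (GF (F1 d) (E : ℂ)).im /
        (V * (GF (F0 d) (E : ℂ)).im ^ 2) * (∑ i, p i ^ 2) / c ^ 2 * t := by
    intro E t
    simp only [div_eq_mul_inv, mul_inv]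
    ring
  simp only [hrate] at key
  exact key

end Pool.Agent.X133.QP
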