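import Pool.Agent.X133.QP.Det

/-! From the profile of the resolvent to the evolution of a site. -/

set_option autoImplicit false
set_option linter.unusedSectionVars false
set_option linter.unusedVariables false

open scoped BigOperators Topology
open MeasureTheory Filter Set

namespace Pool.Agent.X133.QP

open Pool.Agent.H4R2.LO (Zd)
open Pool.Agent.TH794.QD
open Pool.Agent.TH794.QE
open Pool.Agent.TH794.HK

/-- **from the profile of the resolvent to the time averages of the evolution of a site** -/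
theorem qp_abs (φ : ℝ → ℝ) (hφ : Continuous φ) (hs : HasCompactSupport φ) (ε : ℝ) (hε : 0 < ε) :
    ∃ (n : ℕ) (δ : ℝ), 0 < δ ∧ ∀ (d : ℕ) (V : Zd d → ℝ) (a : Zd d) (ψ : ℝ → Zd d → ℂ),
      Sol d V a ψ → ∀ (p : Fin d → ℝ) (s : ℝ), 0 < s →
      ∀ (σ : ℝ) (B Ω : Set ℝ), MeasurableSet B → MeasurableSet Ω → B ⊆ Ω →
      ∀ (g0 g1 : ℝ → ℝ) (s2 : ℝ), 0 < s2 → ∀ err ε' vol : ℝ, volume B < ⊤ →
      volume.real B ≤ vol → 0 ≤ err → (∀ E ∈ Ω, 0 ≤ g1 E ∧ 0 ≤ g0 E) → IntegrableOn g0 Ω →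
      AEStronglyMeasurable g1 (volume.restrict Ω) →
      (∀ j : ℕ, j ≤ n → ∀ E ∈ B, ∀ p' : Fin d → ℝ, p' = p ∨ p' = 0 →
        ‖(((j + 1) * s / 2 : ℝ) : ℂ) *
          ∑' x, ph p' (x - a) * ((‖La ψ (σ - E) ((j + 1) * s / 2) x‖ ^ 2 : ℝ) : ℂ) -
          ((g0 E / (1 + (∑ i, p' i ^ 2) / ((j + 1) * s / 2 * s2) * (g1 E / g0 E ^ 2)) : ℝ) : ℂ)‖ ≤
          err) →
      (∫ E in Ω, g0 E) ≤ Real.pi → Real.pi - ε' ≤ ∫ E in B, g0 E →
      2 * ε' + 2 * (vol * err) ≤ δ →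
      ‖∫ t in Ioi (0 : ℝ), ((s * φ (s * t) : ℝ) : ℂ) *
        (cf ψ a p t - ((1 / Real.pi * ∫ E in Ω, g0 E * Real.exp (-(2 * g1 E / g0 E ^ 2 *
          ((∑ i, p i ^ 2) / s2) * t)) : ℝ) : ℂ))‖ ≤ ε := by
  obtain ⟨n, δ, hδ, hw⟩ := weier φ hφ hs ε hε
  refine ⟨n, δ, hδ, ?_⟩
  intro d V a ψ h p s hs0 σ B Ω hB hΩ hBΩ g0 g1 s2 hs2 err ε' vol hvol hvol2 herr hg hg0 hg1 hprof
    hup hlow hsmall
  obtain ⟨q, hq⟩ : ∃ q, q = ∑ i, p i ^ 2 := ⟨_, rfl⟩
  have hq0 : 0 ≤ q := by rw [hq]; exact Finset.sum_nonneg fun i _ => sq_nonneg _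
  obtain ⟨D, hD⟩ : ∃ D : ℝ → ℝ, D = fun E => 2 * g1 E / g0 E ^ 2 * (q / s2) := ⟨_, rfl⟩
  have hDm : AEStronglyMeasurable D (volume.restrict Ω) := by
    rw [hD]
    apply AEStronglyMeasurable.mul _ (by fun_prop)
    apply AEMeasurable.aestronglyMeasurable
    exact (hg1.aemeasurable.const_mul 2).div (hg0.1.aemeasurable.pow_const 2)
  have hDE : ∀ E, 2 * g1 E / g0 E ^ 2 * (q / s2) = D E := fun E => by rw [hD]
  have hD0 : ∀ E ∈ Ω, 0 ≤ D E := by
    intro E hE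
    rw [hD]
    have h1 := (hg E hE).1
    have h2 : 0 ≤ q / s2 := by positivity
    positivity
  have hm1 : ∀ t : ℝ, 0 < t → ‖((1 / Real.pi * ∫ E in Ω, g0 E * Real.exp (-(D E * t)) : ℝ) :
      ℂ)‖ ≤ 1 := by
    intro t ht
    obtain ⟨b1, b2⟩ := m_bd Ω hΩ g0 D hg0 (fun E hE => (hg E hE).2) hD0 hDm t ht
    have hpi := Real.pi_pos
    rw [Complex.norm_real, Real.norm_of_nonneg (by positivity), one_div, inv_mul_le_iff₀ hpi,
      mul_one]
    exact b2.trans hup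
  rw [← hq]
  simp only [hDE]
  refine hw s hs0 _ ?_ ?_ ?_
  · apply AEStronglyMeasurable.sub (cf_meas h p _)
    exact Complex.continuous_ofReal.comp_aestronglyMeasurable ((m_meas Ω g0 D hg0 hDm).const_mul _)
  · intro t ht
    refine (norm_sub_le _ _).trans ?_
    have := cf_le h p t
    have := hm1 t ht
    linarith
  · intro j hj
    have hη : 0 < (j + 1) * s / 2 := by positivity
    have h1 := one_eta h p ((j + 1) * s / 2) hη σ B Ω hB hΩ hBΩ g0 g1 s2 hs2 err ε' vol hvol hvol2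
      herr hg hg0 hg1 (hprof j hj) hup hlow
    rw [← hq] at h1
    simp only [hDE] at h1
    have e1 : 2 * (((j : ℝ) + 1) * s / 2) = (j + 1) * s := by ring
    rw [e1, norm_mul, Complex.norm_real, Real.norm_of_nonneg (by positivity)] at h1
    have e2 : ∀ t : ℝ, ((s * Real.exp (-((j + 1) * s) * t) : ℝ) : ℂ) *
        (cf ψ a p t - ((1 / Real.pi * ∫ E in Ω, g0 E * Real.exp (-(D E * t)) : ℝ) : ℂ)) =
        (s : ℂ) * (((Real.exp (-((j + 1) * s) * t) : ℝ) : ℂ) *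
        (cf ψ a p t - ((1 / Real.pi * ∫ E in Ω, g0 E * Real.exp (-(D E * t)) : ℝ) : ℂ))) := by
      intro t
      rw [Complex.ofReal_mul s]
      ring
    simp only [e2]
    rw [integral_const_mul, norm_mul, Complex.norm_real, Real.norm_of_nonneg hs0.le]
    refine le_trans ?_ (h1.trans hsmall)
    apply mul_le_mul_of_nonneg_right _ (norm_nonneg _)
    have hpi := Real.pi_gt_three
    have h2 : (0 : ℝ) ≤ j := Nat.cast_nonneg _
    have h3 : s ≤ (j + 1) * s := by nlinarith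
    have h4 : (1 : ℝ) ≤ 2 * Real.pi := by linarith
    calc s ≤ (j + 1) * s := h3
      _ ≤ 2 * Real.pi * (((j : ℝ) + 1) * s / 2) := by nlinarith

/-- increasing sets of energies -/
theorem cover (P : ℕ → Set ℝ) (hPm : ∀ n, MeasurableSet (P n)) (hmono : Monotone P) (Ω : Set ℝ)
    (hΩ : Ω = ⋃ n, P n) (g : ℝ → ℝ) (hgi : ∀ n, IntegrableOn g (P n)) (h0 : ∀ E ∈ Ω, 0 ≤ g E)
    (I : ℝ) (hI : ∀ n, (∫ E in P n, g E) ≤ I) :
    IntegrableOn g Ω ∧ (∫ E in Ω, g E) ≤ I := by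
  have hΩm : MeasurableSet Ω := by
    rw [hΩ]
    exact MeasurableSet.iUnion hPm
  have hsub : ∀ n, P n ⊆ Ω := fun n => by
    rw [hΩ]
    exact Set.subset_iUnion P n
  have hcov : AECover (volume.restrict Ω) atTop P := by
    refine ⟨?_, hPm⟩
    rw [ae_restrict_iff' hΩm]
    refine Filter.Eventually.of_forall fun E hE => ?_
    rw [hΩ] at hE
    obtain ⟨n, hn⟩ := Set.mem_iUnion.1 hE
    exact Filter.eventually_atTop.2 ⟨n, fun m hm => hmono hm hn⟩
  have hrr : ∀ n, (volume.restrict Ω).restrict (P n) = volume.restrict (P n) := fun n =>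
    Measure.restrict_restrict_of_subset (hsub n)
  have hgi' : ∀ n, IntegrableOn g (P n) (volume.restrict Ω) := by
    intro n
    unfold IntegrableOn
    rw [hrr]
    exact hgi n
  have h1 : Integrable g (volume.restrict Ω) := by
    refine hcov.integrable_of_integral_norm_bounded I hgi' (Filter.Eventually.of_forall fun n => ?_)
    rw [hrr]
    refine le_trans (le_of_eq ?_) (hI n)
    refine setIntegral_congr_fun (hPm n) fun E hE => ?_
    exact Real.norm_of_nonneg (h0 E (hsub n hE))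
  refine ⟨h1, ?_⟩
  have h2 := hcov.integral_tendsto_of_countably_generated h1
  refine le_of_tendsto h2 (Filter.Eventually.of_forall fun n => ?_)
  rw [hrr]
  exact hI n

/-- continuity from a Hölder bound -/
theorem hol_cont (P : Set ℝ) (g : ℝ → ℂ) (C : ℝ)
    (h : ∀ E ∈ P, ∀ E' ∈ P, ‖g E - g E'‖ ≤ C * |E - E'| ^ (1 / 8 : ℝ)) :
    ContinuousOn (fun E => (g E).im) P := by
  intro E hE
  rw [ContinuousWithinAt, tendsto_iff_norm_sub_tendsto_zero]
  have hc : Continuous fun E' : ℝ => C * |E' - E| ^ (1 / 8 : ℝ) := by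
    have := Real.continuous_rpow_const (show (0 : ℝ) ≤ 1 / 8 by norm_num)
    fun_prop
  have l2 : Tendsto (fun E' : ℝ => C * |E' - E| ^ (1 / 8 : ℝ)) (𝓝[P] E) (𝓝 0) := by
    have l1 := (hc.tendsto E).mono_left (nhdsWithin_le_nhds (s := P))
    simpa using l1
  refine squeeze_zero' (Filter.Eventually.of_forall fun _ => norm_nonneg _) ?_ l2
  filter_upwards [self_mem_nhdsWithin] with E' hE'
  rw [Real.norm_eq_abs, ← Complex.sub_im]
  exact (Complex.abs_im_le_norm _).trans (h E' hE' E hE)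

end Pool.Agent.X133.QP
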