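import Pool.Agent.TH794.QE.FreeF
import Pool.Agent.X133.QD.Win

/-! The free density of states has mass one. -/

set_option autoImplicit false
set_option linter.unusedSectionVars false
set_option linter.unusedVariables false

open scoped BigOperators Topology
open MeasureTheory Filter Set

namespace Pool.Agent.X133.QP

open Pool.Agent.TH794.QD
open Pool.Agent.TH794.QE
open Pool.Agent.X133.QD (Pz Pz_nonneg Pz_le Pz_cont Pz_deriv Pz_int Pz_total den_ne den_sq)

instance cube_prob (d : ℕ) : IsProbabilityMeasure (cube d) := by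
  unfold cube
  have : IsProbabilityMeasure (volume.restrict (Set.Icc (0 : ℝ) 1)) := ⟨by simp⟩
  infer_instance

theorem inv_im {t : ℝ} (ht : 0 < t) (s E : ℝ) :
    (((s : ℂ) - ((E : ℂ) + (t : ℂ) * Complex.I))⁻¹).im = Pz t s E := by
  rw [Complex.inv_im, Complex.normSq_eq_norm_sq, den_sq]
  unfold Pz
  simp

theorem inv_int {d : ℕ} {t : ℝ} (ht : 0 < t) (E : ℝ) :
    Integrable (fun k : Fin d → ℝ => ((sym k : ℂ) - ((E : ℂ) + (t : ℂ) * Complex.I))⁻¹)
      (cube d) := by
  have hc : Continuous fun k : Fin d → ℝ => ((sym k : ℂ) - ((E : ℂ) + (t : ℂ) * Complex.I))⁻¹ := by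
    apply Continuous.inv₀
    · exact (Complex.continuous_ofReal.comp (sym_cont d)).sub continuous_const
    · intro k
      exact den_ne ht _ _
  refine Integrable.of_bound hc.aestronglyMeasurable (1 / t) (Filter.Eventually.of_forall fun k => ?_)
  rw [norm_inv, ← one_div]
  apply one_div_le_one_div_of_le ht
  have h1 := Complex.abs_im_le_norm ((sym k : ℂ) - ((E : ℂ) + (t : ℂ) * Complex.I))
  simp at h1
  rwa [abs_of_pos ht] at h1

/-- the free density of states -/
theorem dos (d : ℕ) {t : ℝ} (ht : 0 < t) (E : ℝ) :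
    (GF (F0 d) ((E : ℂ) + (t : ℂ) * Complex.I)).im = ∫ k, Pz t (sym k) E ∂(cube d) := by
  rw [GF0_cube d _ (by simpa using ht)]
  have h1 := Complex.imCLM.integral_comp_comm (inv_int (d := d) ht E)
  simp only [Complex.imCLM_apply, inv_im ht] at h1
  exact h1.symm

theorem arct (κ : ℝ) (hκ : 0 < κ) :
    Tendsto (fun t : ℝ => 2 * Real.arctan (κ / t)) (𝓝[>] 0) (𝓝 Real.pi) := by
  have h1 : Tendsto (fun t : ℝ => κ / t) (𝓝[>] 0) atTop := by
    simp only [div_eq_mul_inv]
    exact tendsto_inv_nhdsGT_zero.const_mul_atTop hκ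
  have h2 := ((Real.tendsto_arctan_atTop.mono_right nhdsWithin_le_nhds).comp h1).const_mul 2
  have h3 : 2 * (Real.pi / 2) = Real.pi := by ring
  rw [h3] at h2
  exact h2

/-- **the mass of the density of states** -/
theorem mass (d : ℕ) (B : Set ℝ) (hB : MeasurableSet B) (R κ C : ℝ) (hR : B ⊆ Set.Icc (-R) R)
    (hκ : 0 < κ) (hC : 0 ≤ C) (A : Set (Fin d → ℝ)) (hA : MeasurableSet A)
    (hAB : ∀ k ∈ A, ∀ E : ℝ, |E - sym k| ≤ κ → E ∈ B) (g : ℝ → ℝ) (hgi : IntegrableOn g B)
    (hg : ∀ E ∈ B, ∀ t : ℝ, 0 < t → t ≤ 1 →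
      |(GF (F0 d) ((E : ℂ) + (t : ℂ) * Complex.I)).im - g E| ≤ C * t ^ (1 / 8 : ℝ)) :
    (cube d).real A * Real.pi ≤ ∫ E in B, g E := by
  have hBf : volume B < ⊤ := lt_of_le_of_lt (measure_mono hR) (by
    rw [Real.volume_Icc]
    exact ENNReal.ofReal_lt_top)
  have hfin : IsFiniteMeasure (volume.restrict B) := ⟨by rwa [Measure.restrict_apply_univ]⟩
  have key : ∀ t : ℝ, 0 < t → t ≤ 1 → (cube d).real A * (2 * Real.arctan (κ / t)) ≤
      (∫ E in B, g E) + volume.real B * C * t ^ (1 / 8 : ℝ) := by
    intro t ht ht1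
    have hPc : Continuous fun q : ℝ × (Fin d → ℝ) => Pz t (sym q.2) q.1 := by
      unfold Pz
      apply Continuous.div continuous_const
      · have := (sym_cont d).comp (continuous_snd (X := ℝ) (Y := Fin d → ℝ))
        fun_prop
      · intro q
        positivity
    have hprod : Integrable (fun q : ℝ × (Fin d → ℝ) => Pz t (sym q.2) q.1)
        ((volume.restrict B).prod (cube d)) := by
      refine Integrable.of_bound hPc.aestronglyMeasurable (1 / t)
        (Filter.Eventually.of_forall fun q => ?_)
      rw [Real.norm_of_nonneg (Pz_nonneg ht _ _)]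
      exact Pz_le ht _ _
    have hsw : ∫ E in B, ∫ k, Pz t (sym k) E ∂(cube d) =
        ∫ k, ∫ E in B, Pz t (sym k) E ∂volume ∂(cube d) :=
      integral_integral_swap (f := fun (E : ℝ) (k : Fin d → ℝ) => Pz t (sym k) E) hprod
    have hin : Integrable (fun k => ∫ E in B, Pz t (sym k) E) (cube d) := by
      have := hprod.swap.integral_prod_left
      exact this
    have hin2 : Integrable (fun E => ∫ k, Pz t (sym k) E ∂(cube d)) (volume.restrict B) :=
      hprod.integral_prod_left
    have h1 : (cube d).real A * (2 * Real.arctan (κ / t)) ≤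
        ∫ k, ∫ E in B, Pz t (sym k) E ∂volume ∂(cube d) := by
      have h2 : ∫ k in A, (2 * Real.arctan (κ / t)) ∂(cube d) =
          (cube d).real A * (2 * Real.arctan (κ / t)) := by
        rw [setIntegral_const, smul_eq_mul]
      rw [← h2]
      calc ∫ k in A, (2 * Real.arctan (κ / t)) ∂(cube d) ≤
            ∫ k in A, ∫ E in B, Pz t (sym k) E ∂volume ∂(cube d) := by
            apply setIntegral_mono_on (integrable_const _) hin.integrableOn hA
            intro k hk
            have h3 : ∫ E in Set.Icc (sym k - κ) (sym k + κ), Pz t (sym k) E =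
                2 * Real.arctan (κ / t) := by
              rw [integral_Icc_eq_integral_Ioc, ← intervalIntegral.integral_of_le (by linarith),
                intervalIntegral.integral_eq_sub_of_hasDerivAt (fun x _ => Pz_deriv ht (sym k) x)
                ((Pz_int ht (sym k)).intervalIntegrable)]
              have e1 : (sym k + κ - sym k) / t = κ / t := by ring
              have e2 : (sym k - κ - sym k) / t = -(κ / t) := by ring
              rw [e1, e2, Real.arctan_neg]
              ring
            rw [← h3]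
            apply setIntegral_mono_set (Pz_int ht (sym k)).integrableOn
            · exact Filter.Eventually.of_forall fun E => Pz_nonneg ht _ _
            · apply Filter.Eventually.of_forall
              intro E hE
              apply hAB k hk E
              rw [abs_le]
              constructor <;> linarith [hE.1, hE.2]
        _ ≤ _ := by
            apply setIntegral_le_integral hin
            exact Filter.Eventually.of_forall fun k => integral_nonneg fun E => Pz_nonneg ht _ _
    rw [← hsw] at h1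
    have h4 : ∫ E in B, ∫ k, Pz t (sym k) E ∂(cube d) ≤
        ∫ E in B, (g E + C * t ^ (1 / 8 : ℝ)) := by
      apply setIntegral_mono_on hin2 (hgi.add (integrable_const _)) hB
      intro E hE
      rw [← dos d ht E]
      have := (abs_le.1 (hg E hE t ht ht1)).2
      show _ ≤ g E + C * t ^ (1 / 8 : ℝ)
      linarith
    rw [integral_add hgi (integrable_const _), setIntegral_const, smul_eq_mul] at h4
    linarith
  have l1 := (arct κ hκ).const_mul ((cube d).real A)
  have l2 : Tendsto (fun t : ℝ => (∫ E in B, g E) + volume.real B * C * t ^ (1 / 8 : ℝ)) (𝓝[>] 0)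
      (𝓝 ((∫ E in B, g E) + volume.real B * C * (0 : ℝ) ^ (1 / 8 : ℝ))) := by
    have hc : Continuous fun t : ℝ => (∫ E in B, g E) + volume.real B * C * t ^ (1 / 8 : ℝ) := by
      have := Real.continuous_rpow_const (show (0 : ℝ) ≤ 1 / 8 by norm_num)
      fun_prop
    exact (hc.tendsto 0).mono_left nhdsWithin_le_nhds
  rw [Real.zero_rpow (by norm_num), mul_zero, add_zero] at l2
  refine le_of_tendsto_of_tendsto l1 l2 ?_
  filter_upwards [Ioc_mem_nhdsGT (show (0 : ℝ) < 1 by norm_num)] with t ht
  exact key t ht.1 ht.2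

/-- the mass of the density of states is at most one -/
theorem mass_up (d : ℕ) (B : Set ℝ) (hB : MeasurableSet B) (R C : ℝ) (hR : B ⊆ Set.Icc (-R) R)
    (g : ℝ → ℝ) (hgi : IntegrableOn g B)
    (hg : ∀ E ∈ B, ∀ t : ℝ, 0 < t → t ≤ 1 →
      |(GF (F0 d) ((E : ℂ) + (t : ℂ) * Complex.I)).im - g E| ≤ C * t ^ (1 / 8 : ℝ)) :
    (∫ E in B, g E) ≤ Real.pi := by
  have hBf : volume B < ⊤ := lt_of_le_of_lt (measure_mono hR) (by
    rw [Real.volume_Icc]
    exact ENNReal.ofReal_lt_top)
  have hfin : IsFiniteMeasure (volume.restrict B) := ⟨by rwa [Measure.restrict_apply_univ]⟩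
  have key : ∀ t : ℝ, 0 < t → t ≤ 1 → (∫ E in B, g E) - volume.real B * C * t ^ (1 / 8 : ℝ) ≤
      Real.pi := by
    intro t ht ht1
    have hPc : Continuous fun q : ℝ × (Fin d → ℝ) => Pz t (sym q.2) q.1 := by
      unfold Pz
      apply Continuous.div continuous_const
      · have := (sym_cont d).comp (continuous_snd (X := ℝ) (Y := Fin d → ℝ))
        fun_prop
      · intro q
        positivity
    have hprod : Integrable (fun q : ℝ × (Fin d → ℝ) => Pz t (sym q.2) q.1)
        ((volume.restrict B).prod (cube d)) := by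
      refine Integrable.of_bound hPc.aestronglyMeasurable (1 / t)
        (Filter.Eventually.of_forall fun q => ?_)
      rw [Real.norm_of_nonneg (Pz_nonneg ht _ _)]
      exact Pz_le ht _ _
    have hsw : ∫ E in B, ∫ k, Pz t (sym k) E ∂(cube d) =
        ∫ k, ∫ E in B, Pz t (sym k) E ∂volume ∂(cube d) :=
      integral_integral_swap (f := fun (E : ℝ) (k : Fin d → ℝ) => Pz t (sym k) E) hprod
    have hin : Integrable (fun k => ∫ E in B, Pz t (sym k) E) (cube d) := by
      have := hprod.swap.integral_prod_left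
      exact this
    have hin2 : Integrable (fun E => ∫ k, Pz t (sym k) E ∂(cube d)) (volume.restrict B) :=
      hprod.integral_prod_left
    have h1 : ∫ k, ∫ E in B, Pz t (sym k) E ∂volume ∂(cube d) ≤ Real.pi := by
      have h2 : ∫ _k, Real.pi ∂(cube d) = Real.pi := by simp
      rw [← h2]
      apply integral_mono hin (integrable_const _)
      intro k
      show (∫ E in B, Pz t (sym k) E) ≤ Real.pi
      rw [← Pz_total ht (sym k)]
      exact setIntegral_le_integral (Pz_int ht (sym k))
        (Filter.Eventually.of_forall fun E => Pz_nonneg ht _ _)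
    rw [← hsw] at h1
    have h4 : (∫ E in B, (g E - C * t ^ (1 / 8 : ℝ))) ≤ ∫ E in B, ∫ k, Pz t (sym k) E ∂(cube d) := by
      apply setIntegral_mono_on (hgi.sub (integrable_const _)) hin2 hB
      intro E hE
      rw [← dos d ht E]
      have := (abs_le.1 (hg E hE t ht ht1)).1
      show g E - C * t ^ (1 / 8 : ℝ) ≤ _
      linarith
    rw [integral_sub hgi (integrable_const _), setIntegral_const, smul_eq_mul] at h4
    linarith
  have l2 : Tendsto (fun t : ℝ => (∫ E in B, g E) - volume.real B * C * t ^ (1 / 8 : ℝ)) (𝓝[>] 0)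
      (𝓝 ((∫ E in B, g E) - volume.real B * C * (0 : ℝ) ^ (1 / 8 : ℝ))) := by
    have hc : Continuous fun t : ℝ => (∫ E in B, g E) - volume.real B * C * t ^ (1 / 8 : ℝ) := by
      have := Real.continuous_rpow_const (show (0 : ℝ) ≤ 1 / 8 by norm_num)
      fun_prop
    exact (hc.tendsto 0).mono_left nhdsWithin_le_nhds
  rw [Real.zero_rpow (by norm_num), mul_zero, sub_zero] at l2
  refine le_of_tendsto l2 ?_
  filter_upwards [Ioc_mem_nhdsGT (show (0 : ℝ) < 1 by norm_num)] with t ht
  exact key t ht.1 ht.2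

/-! null sets -/

theorem cos_null (c : ℝ) : (volume.restrict (Set.Icc (0 : ℝ) 1))
    {x : ℝ | Real.cos (2 * Real.pi * x) = c} = 0 := by
  have h1 : {x : ℝ | Real.cos (2 * Real.pi * x) = c}.Countable := by
    by_cases h : ∃ x0 : ℝ, Real.cos (2 * Real.pi * x0) = c
    · obtain ⟨x0, h0⟩ := h
      have h2 : {x : ℝ | Real.cos (2 * Real.pi * x) = c} ⊆
          (Set.range fun n : ℤ => (n : ℝ) + x0) ∪ Set.range fun n : ℤ => (n : ℝ) - x0 := by
        intro x hx
        have h3 : Real.cos (2 * Real.pi * x0) = Real.cos (2 * Real.pi * x) := by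
          rw [h0]
          exact (show Real.cos (2 * Real.pi * x) = c from hx).symm
        obtain ⟨n, hn⟩ := Real.cos_eq_cos_iff.1 h3
        have hpi := Real.pi_pos
        rcases hn with hn | hn
        · left
          refine ⟨n, ?_⟩
          have : 2 * Real.pi * x = 2 * Real.pi * (n + x0) := by rw [hn]; ring
          exact (mul_left_cancel₀ (by positivity) this).symm
        · right
          refine ⟨n, ?_⟩
          have : 2 * Real.pi * x = 2 * Real.pi * (n - x0) := by rw [hn]; ring
          exact (mul_left_cancel₀ (by positivity) this).symm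
      exact ((Set.countable_range _).union (Set.countable_range _)).mono h2
    · have : {x : ℝ | Real.cos (2 * Real.pi * x) = c} = ∅ := by
        ext x
        simp only [Set.mem_setOf_eq, Set.mem_empty_iff_false, iff_false]
        intro hx
        exact h ⟨x, hx⟩
      rw [this]
      exact Set.countable_empty
  exact h1.measure_zero _

theorem ae_lt (d : ℕ) (hd : 1 ≤ d) : ∀ᵐ k ∂(cube d), |sym k| < 2 * d := by
  obtain ⟨i⟩ : Nonempty (Fin d) := ⟨⟨0, by omega⟩⟩
  have h1 : ∀ c : ℝ, ∀ᵐ k ∂(cube d), Real.cos (2 * Real.pi * k i) ≠ c := by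
    intro c
    rw [ae_iff]
    have h2 := Measure.pi_eval_preimage_null
      (μ := fun _ : Fin d => volume.restrict (Set.Icc (0 : ℝ) 1)) (i := i) (cos_null c)
    simpa [cube] using h2
  filter_upwards [h1 1, h1 (-1)] with k h2 h3
  have h4 : |Real.cos (2 * Real.pi * k i)| < 1 := by
    rw [abs_lt]
    have h5 := Real.neg_one_le_cos (2 * Real.pi * k i)
    have h6 := Real.cos_le_one (2 * Real.pi * k i)
    exact ⟨lt_of_le_of_ne h5 (Ne.symm h3), lt_of_le_of_ne h6 h2⟩
  unfold sym
  calc |∑ j, 2 * Real.cos (2 * Real.pi * k j)| ≤ ∑ j, |2 * Real.cos (2 * Real.pi * k j)| :=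
        Finset.abs_sum_le_sum_abs _ _
    _ < ∑ _j : Fin d, (2 : ℝ) := by
        apply Finset.sum_lt_sum
        · intro j _
          rw [abs_mul, abs_of_pos (by norm_num : (0 : ℝ) < 2)]
          have := Real.abs_cos_le_one (2 * Real.pi * k j)
          linarith
        · refine ⟨i, Finset.mem_univ _, ?_⟩
          rw [abs_mul, abs_of_pos (by norm_num : (0 : ℝ) < 2)]
          linarith
    _ = 2 * d := by
        rw [Finset.sum_const, Finset.card_univ, Fintype.card_fin, nsmul_eq_mul]
        ring

theorem ae_ne : ∀ᵐ k ∂(cube 2), sym k ≠ 0 := by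
  have hmp := measurePreserving_finTwoArrow (volume.restrict (Set.Icc (0 : ℝ) 1))
  obtain ⟨Z, hZ⟩ : ∃ Z : Set (ℝ × ℝ), Z = {q | Real.cos (2 * Real.pi * q.1) +
    Real.cos (2 * Real.pi * q.2) = 0} := ⟨_, rfl⟩
  have hZm : MeasurableSet Z := by
    rw [hZ]
    apply measurableSet_eq_fun <;> fun_prop
  have hZ0 : ((volume.restrict (Set.Icc (0 : ℝ) 1)).prod (volume.restrict (Set.Icc (0 : ℝ) 1))) Z =
      0 := by
    rw [Measure.measure_prod_null hZm]
    refine Filter.Eventually.of_forall fun x => ?_
    have h1 : Prod.mk x ⁻¹' Z = {y : ℝ | Real.cos (2 * Real.pi * y) =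
        -Real.cos (2 * Real.pi * x)} := by
      rw [hZ]
      ext y
      constructor
      · intro h
        have h2 : Real.cos (2 * Real.pi * x) + Real.cos (2 * Real.pi * y) = 0 := h
        show Real.cos (2 * Real.pi * y) = -Real.cos (2 * Real.pi * x)
        linarith
      · intro h
        have h2 : Real.cos (2 * Real.pi * y) = -Real.cos (2 * Real.pi * x) := h
        show Real.cos (2 * Real.pi * x) + Real.cos (2 * Real.pi * y) = 0
        linarith
    show (volume.restrict (Set.Icc (0 : ℝ) 1)) (Prod.mk x ⁻¹' Z) = 0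
    rw [h1]
    exact cos_null _
  have h3 := hmp.measure_preimage hZm.nullMeasurableSet
  rw [hZ0] at h3
  rw [ae_iff]
  refine measure_mono_null (fun k hk => ?_) h3
  have h4 : sym k = 0 := by
    by_contra hcon
    exact hk hcon
  rw [hZ]
  show Real.cos (2 * Real.pi * k 0) + Real.cos (2 * Real.pi * k 1) = 0
  unfold sym at h4
  rw [Fin.sum_univ_two] at h4
  linarith

/-- almost all of the mass is in the bulk, from one almost sure statement -/
theorem ev_mass {d : ℕ} (P : ℕ → Set (Fin d → ℝ)) (hP : ∀ n, MeasurableSet (P n))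
    (hmono : Monotone P) (h : ∀ᵐ k ∂(cube d), ∃ n, k ∈ P n) (ε : ℝ) (hε : 0 < ε) :
    ∃ n, 1 - ε ≤ (cube d).real (P n) := by
  have h1 := tendsto_measure_iUnion_atTop (μ := cube d) hmono
  have h2 : (cube d) (⋃ n, P n) = 1 := by
    rw [← prob_compl_eq_zero_iff (MeasurableSet.iUnion hP)]
    have h3 := ae_iff.1 h
    refine measure_mono_null (fun k hk => ?_) h3
    intro hcon
    obtain ⟨n, hn⟩ := hcon
    exact hk (Set.mem_iUnion.2 ⟨n, hn⟩)
  rw [h2] at h1
  have h4 : Tendsto (fun n => (cube d).real (P n)) atTop (𝓝 1) := by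
    have := (ENNReal.tendsto_toReal ENNReal.one_ne_top).comp h1
    simpa [Measure.real, Function.comp_def] using this
  obtain ⟨n, hn⟩ := (h4.eventually (lt_mem_nhds (show 1 - ε < 1 by linarith))).exists
  exact ⟨n, hn.le⟩

end Pool.Agent.X133.QP
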