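import Mathlib

/-! From Laplace transforms to time averages; splitting of an integral over the energies. -/

set_option autoImplicit false
set_option linter.unusedSectionVars false
set_option linter.unusedVariables false

open scoped BigOperators Topology
open MeasureTheory Filter Set Polynomial

namespace Pool.Agent.X133.QP

theorem exp_int' (a : ℝ) (ha : 0 < a) : IntegrableOn (fun s => Real.exp (-a * s)) (Ioi (0 : ℝ)) :=
  exp_neg_integrableOn_Ioi 0 ha

theorem exp_val' (a : ℝ) (ha : 0 < a) : ∫ s in Ioi (0 : ℝ), Real.exp (-a * s) = a⁻¹ := by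
  have h := integral_exp_mul_Ioi (a := -a) (by linarith) 0
  rw [h]
  simp

/-- **time averages from Laplace transforms** -/
theorem weier (φ : ℝ → ℝ) (hφ : Continuous φ) (hs : HasCompactSupport φ) (ε : ℝ) (hε : 0 < ε) :
    ∃ (n : ℕ) (δ : ℝ), 0 < δ ∧ ∀ s : ℝ, 0 < s → ∀ F : ℝ → ℂ,
      AEStronglyMeasurable F (volume.restrict (Ioi (0 : ℝ))) → (∀ t : ℝ, 0 < t → ‖F t‖ ≤ 2) →
      (∀ j : ℕ, j ≤ n → ‖∫ t in Ioi (0 : ℝ), ((s * Real.exp (-((j + 1) * s) * t) : ℝ) : ℂ) * F t‖ ≤
        δ) →
      ‖∫ t in Ioi (0 : ℝ), ((s * φ (s * t) : ℝ) : ℂ) * F t‖ ≤ ε := by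
  obtain ⟨R, hR0, hR⟩ : ∃ R : ℝ, 0 < R ∧ ∀ x : ℝ, R ≤ x → φ x = 0 := by
    obtain ⟨R, hR⟩ := hs.isCompact.isBounded.subset_closedBall 0
    refine ⟨max R 0 + 1, by positivity, fun x hx => ?_⟩
    by_contra hne
    have h1 := hR (subset_tsupport φ hne)
    rw [Metric.mem_closedBall, dist_zero_right, Real.norm_eq_abs] at h1
    have h2 := le_abs_self x
    have h3 := le_max_left R 0
    linarith
  obtain ⟨m, hm⟩ : ∃ m, m = Real.exp (-R) := ⟨_, rfl⟩
  have hm0 : 0 < m := by rw [hm]; exact Real.exp_pos _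
  obtain ⟨H, hH⟩ : ∃ H : ℝ → ℝ, H = fun x => φ (-Real.log (max x m)) / max x m := ⟨_, rfl⟩
  have hmx : ∀ x : ℝ, 0 < max x m := fun x => hm0.trans_le (le_max_right _ _)
  have hHc : Continuous H := by
    rw [hH]
    apply Continuous.div
    · apply hφ.comp
      apply Continuous.neg
      apply Continuous.log
      · fun_prop
      · intro x
        exact (hmx x).ne'
    · fun_prop
    · intro x
      exact (hmx x).ne'
  have hHx : ∀ x : ℝ, 0 < x → φ (-Real.log x) = x * H x := by
    intro x hx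
    rw [hH]
    simp only
    rcases le_or_gt m x with h | h
    · rw [max_eq_left h]
      field_simp
    · rw [max_eq_right h.le]
      have h1 : R ≤ -Real.log x := by
        have := Real.log_lt_log hx h
        rw [hm, Real.log_exp] at this
        linarith
      have h2 : φ (-Real.log m) = 0 := by
        rw [hm, Real.log_exp, neg_neg]
        exact hR R le_rfl
      rw [hR _ h1, h2]
      ring
  obtain ⟨p, hp⟩ := exists_polynomial_near_of_continuousOn 0 1 H hHc.continuousOn (ε / 4)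
    (by positivity)
  obtain ⟨Cp, hCp⟩ : ∃ Cp, Cp = ∑ j ∈ Finset.range (p.natDegree + 1), |p.coeff j| := ⟨_, rfl⟩
  have hCp0 : 0 ≤ Cp := by rw [hCp]; positivity
  refine ⟨p.natDegree, ε / (2 * (1 + Cp)), by positivity, ?_⟩
  intro s hs0 F hFm hF hj
  -- the integrands
  have hej : ∀ j : ℕ, Integrable (fun t => ((s * Real.exp (-((j + 1) * s) * t) : ℝ) : ℂ) * F t)
      (volume.restrict (Ioi (0 : ℝ))) := by
    intro j
    have h1 : IntegrableOn (fun t => s * Real.exp (-((j + 1) * s) * t) * 2) (Ioi (0 : ℝ)) :=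
      ((exp_int' ((j + 1) * s) (by positivity)).const_mul s).mul_const 2
    refine Integrable.mono' h1 ?_ ?_
    · exact AEStronglyMeasurable.mul (by fun_prop) hFm
    · rw [ae_restrict_iff' measurableSet_Ioi]
      refine Filter.Eventually.of_forall fun t ht => ?_
      rw [norm_mul, Complex.norm_real, Real.norm_of_nonneg (by positivity)]
      exact mul_le_mul_of_nonneg_left (hF t ht) (by positivity)
  have hdec : ∀ t : ℝ, 0 < t → ((s * φ (s * t) : ℝ) : ℂ) * F t =
      (∑ j ∈ Finset.range (p.natDegree + 1), (p.coeff j : ℂ) *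
        (((s * Real.exp (-((j + 1) * s) * t) : ℝ) : ℂ) * F t)) +
      ((s * (Real.exp (-s * t) * (H (Real.exp (-s * t)) - p.eval (Real.exp (-s * t)))) : ℝ) : ℂ) *
        F t := by
    intro t ht
    obtain ⟨x, hx⟩ : ∃ x, x = Real.exp (-s * t) := ⟨_, rfl⟩
    have hx0 : 0 < x := by rw [hx]; exact Real.exp_pos _
    have h1 : φ (s * t) = x * H x := by
      rw [← hHx x hx0, hx, Real.log_exp]
      congr 1
      ring
    have h2 : ∀ j : ℕ, Real.exp (-((j + 1) * s) * t) = x * x ^ j := by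
      intro j
      rw [hx, ← Real.exp_nat_mul, ← Real.exp_add]
      congr 1
      ring
    have h3 : p.eval x = ∑ j ∈ Finset.range (p.natDegree + 1), p.coeff j * x ^ j :=
      p.eval_eq_sum_range x
    rw [← hx, h1]
    simp only [h2]
    have h4 : ∑ j ∈ Finset.range (p.natDegree + 1), (p.coeff j : ℂ) *
        (((s * (x * x ^ j) : ℝ) : ℂ) * F t) = ((s * (x * p.eval x) : ℝ) : ℂ) * F t := by
      rw [h3]
      push_cast
      rw [Finset.mul_sum, Finset.mul_sum, Finset.sum_mul]
      refine Finset.sum_congr rfl fun j _ => ?_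
      ring
    rw [h4]
    push_cast
    ring
  have hrem : Integrable (fun t => ((s * (Real.exp (-s * t) * (H (Real.exp (-s * t)) -
      p.eval (Real.exp (-s * t)))) : ℝ) : ℂ) * F t) (volume.restrict (Ioi (0 : ℝ))) ∧
      ‖∫ t in Ioi (0 : ℝ), ((s * (Real.exp (-s * t) * (H (Real.exp (-s * t)) -
      p.eval (Real.exp (-s * t)))) : ℝ) : ℂ) * F t‖ ≤ ε / 2 := by
    have hi : IntegrableOn (fun t => s * (ε / 4 * 2) * Real.exp (-s * t)) (Ioi (0 : ℝ)) :=
      (exp_int' s hs0).const_mul _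
    have hb : ∀ᵐ t ∂(volume.restrict (Ioi (0 : ℝ))), ‖((s * (Real.exp (-s * t) *
        (H (Real.exp (-s * t)) - p.eval (Real.exp (-s * t)))) : ℝ) : ℂ) * F t‖ ≤
        s * (ε / 4 * 2) * Real.exp (-s * t) := by
      rw [ae_restrict_iff' measurableSet_Ioi]
      refine Filter.Eventually.of_forall fun t ht => ?_
      have ht0 : 0 < t := ht
      have hx1 : Real.exp (-s * t) ∈ Set.Icc (0 : ℝ) 1 :=
        ⟨(Real.exp_pos _).le, Real.exp_le_one_iff.2 (by
          have := mul_pos hs0 ht0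
          linarith)⟩
      have h5 := hp _ hx1
      rw [norm_mul, Complex.norm_real, Real.norm_eq_abs, abs_mul, abs_mul, abs_of_pos hs0,
        abs_of_pos (Real.exp_pos _), abs_sub_comm]
      have h6 := hF t ht0
      calc s * (Real.exp (-s * t) * |p.eval (Real.exp (-s * t)) - H (Real.exp (-s * t))|) * ‖F t‖ ≤
            s * (Real.exp (-s * t) * (ε / 4)) * 2 := by gcongr
        _ = _ := by ring
    refine ⟨Integrable.mono' hi ?_ hb, ?_⟩
    · exact AEStronglyMeasurable.mul (by fun_prop) hFm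
    · refine (norm_integral_le_of_norm_le hi hb).trans ?_
      rw [integral_const_mul, exp_val' s hs0]
      apply le_of_eq
      field_simp
      ring
  have hsum : ∫ t in Ioi (0 : ℝ), ((s * φ (s * t) : ℝ) : ℂ) * F t =
      (∑ j ∈ Finset.range (p.natDegree + 1), (p.coeff j : ℂ) *
        ∫ t in Ioi (0 : ℝ), (((s * Real.exp (-((j + 1) * s) * t) : ℝ) : ℂ) * F t)) +
      ∫ t in Ioi (0 : ℝ), ((s * (Real.exp (-s * t) * (H (Real.exp (-s * t)) -
        p.eval (Real.exp (-s * t)))) : ℝ) : ℂ) * F t := by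
    rw [setIntegral_congr_fun measurableSet_Ioi fun t ht => hdec t ht,
      integral_add (integrable_finsetSum _ fun j _ => (hej j).const_mul _) hrem.1,
      integral_finsetSum _ fun j _ => (hej j).const_mul _]
    congr 1
    refine Finset.sum_congr rfl fun j _ => ?_
    rw [integral_const_mul]
  rw [hsum]
  refine (norm_add_le _ _).trans ?_
  have h7 : ‖∑ j ∈ Finset.range (p.natDegree + 1), (p.coeff j : ℂ) *
      ∫ t in Ioi (0 : ℝ), (((s * Real.exp (-((j + 1) * s) * t) : ℝ) : ℂ) * F t)‖ ≤ ε / 2 := by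
    calc _ ≤ ∑ j ∈ Finset.range (p.natDegree + 1), |p.coeff j| * (ε / (2 * (1 + Cp))) := by
          refine (norm_sum_le _ _).trans (Finset.sum_le_sum fun j hj' => ?_)
          rw [norm_mul, Complex.norm_real, Real.norm_eq_abs]
          apply mul_le_mul_of_nonneg_left _ (abs_nonneg _)
          exact hj j (by
            have := Finset.mem_range.1 hj'
            omega)
      _ = Cp * (ε / (2 * (1 + Cp))) := by rw [← Finset.sum_mul, ← hCp]
      _ ≤ ε / 2 := by
          rw [mul_div_assoc', div_le_div_iff₀ (by positivity) (by norm_num)]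
          nlinarith
  linarith [hrem.2]

/-- splitting of an integral over the energies -/
theorem split_int (B Ω : Set ℝ) (hB : MeasurableSet B) (hΩ : MeasurableSet Ω) (hBΩ : B ⊆ Ω)
    (U : ℝ → ℂ) (S T g : ℝ → ℝ) (err ε vol M : ℝ) (hU : Integrable U) (hS : Integrable S)
    (hUS : ∀ E, ‖U E‖ ≤ S E) (htot : ∫ E, S E = M) (hvol : volume B < ⊤)
    (hvol2 : volume.real B ≤ vol) (herr : 0 ≤ err)
    (h1 : ∀ E ∈ B, ‖U E - (T E : ℂ)‖ ≤ err) (h2 : ∀ E ∈ B, |S E - g E| ≤ err)
    (hT : ∀ E ∈ Ω, |T E| ≤ g E) (hTi : IntegrableOn T Ω) (hgi : IntegrableOn g Ω)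
    (hup : (∫ E in Ω, g E) ≤ M) (hlow : M - ε ≤ ∫ E in B, g E) :
    ‖(∫ E, U E) - ((∫ E in Ω, T E : ℝ) : ℂ)‖ ≤ 2 * ε + 2 * (vol * err) := by
  have hfin : IsFiniteMeasure (volume.restrict B) := ⟨by rwa [Measure.restrict_apply_univ]⟩
  have hgB := hgi.mono_set hBΩ
  have hTB := hTi.mono_set hBΩ
  have e1 := integral_add_compl hB hU
  have e2 := integral_add_compl hB hS
  have hve : volume.real B * err ≤ vol * err := by gcongr
  -- inside
  have a1 : ‖(∫ E in B, U E) - ((∫ E in B, T E : ℝ) : ℂ)‖ ≤ vol * err := by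
    have h3 : ((∫ E in B, T E : ℝ) : ℂ) = ∫ E in B, (T E : ℂ) := integral_complex_ofReal.symm
    have h3' : IntegrableOn (fun E => (T E : ℂ)) B := hTB.ofReal
    rw [h3, ← integral_sub hU.integrableOn h3']
    refine (norm_setIntegral_le_of_norm_le_const hvol fun E hE => h1 E hE).trans ?_
    rw [mul_comm]
    exact hve
  -- outside
  have a2 : ‖∫ E in Bᶜ, U E‖ ≤ ε + vol * err := by
    have h3 : ‖∫ E in Bᶜ, U E‖ ≤ ∫ E in Bᶜ, S E :=
      norm_integral_le_of_norm_le hS.integrableOn (Filter.Eventually.of_forall fun E => hUS E)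
    have h4 : (∫ E in B, g E) - (∫ E in B, S E) ≤ vol * err := by
      rw [← integral_sub hgB hS.integrableOn]
      have h5 : (∫ E in B, (g E - S E)) ≤ ∫ E in B, err := by
        apply setIntegral_mono_on (hgB.sub hS.integrableOn) (integrable_const _) hB
        intro E hE
        have := (abs_le.1 (h2 E hE)).1
        show g E - S E ≤ err
        linarith
      rw [setIntegral_const, smul_eq_mul] at h5
      linarith
    linarith
  -- the target
  have a3 : ‖((∫ E in B, T E : ℝ) : ℂ) - ((∫ E in Ω, T E : ℝ) : ℂ)‖ ≤ ε := by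
    have h3 : (∫ E in Ω, T E) = (∫ E in B, T E) + (∫ E in Ω \ B, T E) := by
      rw [← setIntegral_union disjoint_sdiff_right (hΩ.diff hB) hTB (hTi.mono_set sdiff_subset),
        union_sdiff_cancel hBΩ]
    have h4 : (∫ E in Ω, g E) = (∫ E in B, g E) + (∫ E in Ω \ B, g E) := by
      rw [← setIntegral_union disjoint_sdiff_right (hΩ.diff hB) hgB (hgi.mono_set sdiff_subset),
        union_sdiff_cancel hBΩ]
    have h5 : |∫ E in Ω \ B, T E| ≤ ∫ E in Ω \ B, g E := by
      have h6 : ∀ᵐ E ∂(volume.restrict (Ω \ B)), ‖T E‖ ≤ g E := by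
        rw [ae_restrict_iff' (hΩ.diff hB)]
        exact Filter.Eventually.of_forall fun E hE => by
          rw [Real.norm_eq_abs]
          exact hT E hE.1
      exact norm_integral_le_of_norm_le (hgi.mono_set sdiff_subset) h6
    rw [← Complex.ofReal_sub, Complex.norm_real, Real.norm_eq_abs, h3]
    have h7 : (∫ E in B, T E) - ((∫ E in B, T E) + (∫ E in Ω \ B, T E)) =
        -∫ E in Ω \ B, T E := by ring
    rw [h7, abs_neg]
    linarith
  have e3 : (∫ E, U E) - ((∫ E in Ω, T E : ℝ) : ℂ) =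
      ((∫ E in B, U E) - ((∫ E in B, T E : ℝ) : ℂ)) +
      (∫ E in Bᶜ, U E) + (((∫ E in B, T E : ℝ) : ℂ) - ((∫ E in Ω, T E : ℝ) : ℂ)) := by
    rw [← e1]
    ring
  rw [e3]
  refine (norm_add_le _ _).trans ?_
  have := norm_add_le ((∫ E in B, U E) - ((∫ E in B, T E : ℝ) : ℂ)) (∫ E in Bᶜ, U E)
  linarith

/-- the Laplace transform of the target -/
theorem tgt (Ω : Set ℝ) (hΩ : MeasurableSet Ω) (g D : ℝ → ℝ) (hg : IntegrableOn g Ω)
    (hD : AEStronglyMeasurable D (volume.restrict Ω)) (hD0 : ∀ E, 0 ≤ D E) (a : ℝ) (ha : 0 < a) :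
    ∫ t in Ioi (0 : ℝ), Real.exp (-a * t) * ∫ E in Ω, g E * Real.exp (-(D E * t)) =
      ∫ E in Ω, g E / (a + D E) := by
  have hint : Integrable (fun q : ℝ × ℝ => Real.exp (-a * q.1) * (g q.2 * Real.exp (-(D q.2 * q.1))))
      ((volume.restrict (Ioi (0 : ℝ))).prod (volume.restrict Ω)) := by
    have h1 : Integrable (fun q : ℝ × ℝ => Real.exp (-a * q.1) * g q.2)
        ((volume.restrict (Ioi (0 : ℝ))).prod (volume.restrict Ω)) :=
      Integrable.mul_prod (f := fun t => Real.exp (-a * t)) (g := g) (exp_int' a ha) hg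
    refine Integrable.mono h1 ?_ ?_
    · apply AEStronglyMeasurable.mul (by fun_prop)
      apply AEStronglyMeasurable.mul hg.1.comp_snd
      apply Real.continuous_exp.comp_aestronglyMeasurable
      exact (hD.comp_snd.mul (by fun_prop)).neg
    · have h2 : ∀ᵐ q : ℝ × ℝ ∂((volume.restrict (Ioi (0 : ℝ))).prod (volume.restrict Ω)),
          0 < q.1 := by
        have h3 : ∀ᵐ t ∂(volume.restrict (Ioi (0 : ℝ))), 0 < t :=
          ae_restrict_mem measurableSet_Ioi
        exact Measure.quasiMeasurePreserving_fst.ae h3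
      filter_upwards [h2] with q hq
      rw [norm_mul, norm_mul, norm_mul, Real.norm_eq_abs (Real.exp (-(D q.2 * q.1))),
        abs_of_pos (Real.exp_pos _)]
      apply mul_le_mul_of_nonneg_left _ (norm_nonneg _)
      apply mul_le_of_le_one_right (norm_nonneg _)
      rw [Real.exp_le_one_iff]
      have := mul_nonneg (hD0 q.2) hq.le
      linarith
  have h3 : ∀ t : ℝ, Real.exp (-a * t) * ∫ E in Ω, g E * Real.exp (-(D E * t)) =
      ∫ E in Ω, Real.exp (-a * t) * (g E * Real.exp (-(D E * t))) := fun t =>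
    (integral_const_mul _ _).symm
  simp only [h3]
  rw [integral_integral_swap (f := fun (t E : ℝ) => Real.exp (-a * t) *
    (g E * Real.exp (-(D E * t)))) hint]
  refine setIntegral_congr_fun hΩ fun E _ => ?_
  have h4 : ∀ t : ℝ, Real.exp (-a * t) * (g E * Real.exp (-(D E * t))) =
      g E * Real.exp (-(a + D E) * t) := by
    intro t
    rw [mul_left_comm, ← Real.exp_add]
    congr 2
    ring
  simp only [h4]
  have h5 : 0 < a + D E := by
    have := hD0 E
    linarith
  rw [integral_const_mul, exp_val' _ h5, div_eq_mul_inv]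

end Pool.Agent.X133.QP
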