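import Pool.Agent.X133.QP.Pl
import Pool.Agent.X133.QP.Mass
import Pool.Agent.X133.QP.Wei
import Pool.Agent.TH794.HK.FinN

/-! From the profile of the resolvent to the evolution of a site: the deterministic part. -/

set_option autoImplicit false
set_option linter.unusedSectionVars false
set_option linter.unusedVariables false

open scoped BigOperators Topology
open MeasureTheory Filter Set

namespace Pool.Agent.X133.QP

open Pool.Agent.H4R2.LO (Zd)
open Pool.Agent.TH794.QD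
open Pool.Agent.TH794.QE
open Pool.Agent.TH794.HK

variable {d : ℕ}

/-- the characteristic function of the position -/
noncomputable def cf (ψ : ℝ → Zd d → ℂ) (a : Zd d) (p : Fin d → ℝ) (t : ℝ) : ℂ :=
  ∑' x, ph p (x - a) * ((‖ψ t x‖ ^ 2 : ℝ) : ℂ)

section

variable {V : Zd d → ℝ} {a : Zd d} {ψ : ℝ → Zd d → ℂ}

theorem cf_meas (h : Sol d V a ψ) (p : Fin d → ℝ) (μ : Measure ℝ) :
    AEStronglyMeasurable (cf ψ a p) μ := by
  unfold cf
  apply AEMeasurable.aestronglyMeasurable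
  apply AEMeasurable.tsum
  intro x
  have h1 : Continuous fun t : ℝ => ph p (x - a) * ((‖ψ t x‖ ^ 2 : ℝ) : ℂ) :=
    continuous_const.mul (Complex.continuous_ofReal.comp ((h.cont x).norm.pow 2))
  exact h1.measurable.aemeasurable

theorem ph_sq (p : Fin d → ℝ) (y : Zd d) (z : ℂ) : ‖ph p y * ((‖z‖ ^ 2 : ℝ) : ℂ)‖ = ‖z‖ ^ 2 := by
  rw [norm_mul, ph_norm, one_mul, Complex.norm_real, Real.norm_of_nonneg (sq_nonneg _)]

theorem cf_le (h : Sol d V a ψ) (p : Fin d → ℝ) (t : ℝ) : ‖cf ψ a p t‖ ≤ 1 := by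
  unfold cf
  have h1 : Summable fun x => ‖ph p (x - a) * ((‖ψ t x‖ ^ 2 : ℝ) : ℂ)‖ := by
    simp only [ph_sq]
    exact (h.norm t).summable
  refine (norm_tsum_le_tsum_norm h1).trans ?_
  simp only [ph_sq]
  rw [(h.norm t).tsum_eq]

end

/-- the mass of the limit -/
theorem m_meas (Ω : Set ℝ) (g D : ℝ → ℝ) (hg : IntegrableOn g Ω)
    (hD : AEStronglyMeasurable D (volume.restrict Ω)) :
    AEStronglyMeasurable (fun t : ℝ => ∫ E in Ω, g E * Real.exp (-(D E * t)))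
      (volume.restrict (Ioi (0 : ℝ))) := by
  have h1 : AEStronglyMeasurable (fun q : ℝ × ℝ => g q.2 * Real.exp (-(D q.2 * q.1)))
      ((volume.restrict (Ioi (0 : ℝ))).prod (volume.restrict Ω)) := by
    apply AEStronglyMeasurable.mul hg.1.comp_snd
    apply Real.continuous_exp.comp_aestronglyMeasurable
    exact (hD.comp_snd.mul (by fun_prop)).neg
  exact h1.integral_prod_right'

theorem m_bd (Ω : Set ℝ) (hΩ : MeasurableSet Ω) (g D : ℝ → ℝ) (hg : IntegrableOn g Ω)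
    (hg0 : ∀ E ∈ Ω, 0 ≤ g E) (hD0 : ∀ E ∈ Ω, 0 ≤ D E)
    (hD : AEStronglyMeasurable D (volume.restrict Ω)) (t : ℝ) (ht : 0 < t) :
    0 ≤ (∫ E in Ω, g E * Real.exp (-(D E * t))) ∧
    (∫ E in Ω, g E * Real.exp (-(D E * t))) ≤ ∫ E in Ω, g E := by
  have hle : ∀ E ∈ Ω, g E * Real.exp (-(D E * t)) ≤ g E := by
    intro E hE
    apply mul_le_of_le_one_right (hg0 E hE)
    rw [Real.exp_le_one_iff]
    have := mul_nonneg (hD0 E hE) ht.le
    linarith
  refine ⟨setIntegral_nonneg hΩ fun E hE => mul_nonneg (hg0 E hE) (Real.exp_pos _).le, ?_⟩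
  apply setIntegral_mono_on ?_ hg hΩ hle
  refine Integrable.mono' hg ?_ ?_
  · apply AEStronglyMeasurable.mul hg.1
    apply Real.continuous_exp.comp_aestronglyMeasurable
    exact (hD.mul (by fun_prop)).neg
  · rw [ae_restrict_iff' hΩ]
    refine Filter.Eventually.of_forall fun E hE => ?_
    rw [Real.norm_of_nonneg (mul_nonneg (hg0 E hE) (Real.exp_pos _).le)]
    exact hle E hE

section

variable {V : Zd d → ℝ} {a : Zd d} {ψ : ℝ → Zd d → ℂ}

/-- the total mass of the resolvent -/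
theorem tot (h : Sol d V a ψ) (η : ℝ) (hη : 0 < η) :
    Integrable (fun E : ℝ => η * ∑' x, ‖La ψ E η x‖ ^ 2) ∧
    ∫ E : ℝ, η * ∑' x, ‖La ψ E η x‖ ^ 2 = Real.pi := by
  obtain ⟨h1, h2⟩ := pl_main h η hη (fun _ => 1) (fun _ => by simp)
  have e1 : ∀ E : ℝ, ∑' x, (1 : ℂ) * ((‖La ψ E η x‖ ^ 2 : ℝ) : ℂ) =
      ((∑' x, ‖La ψ E η x‖ ^ 2 : ℝ) : ℂ) := by
    intro E
    simp only [one_mul]
    exact (Complex.ofReal_tsum _).symm
  have e2 : ∀ s : ℝ, ∑' x, (1 : ℂ) * ((‖ψ s x‖ ^ 2 : ℝ) : ℂ) = 1 := by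
    intro s
    simp only [one_mul]
    rw [← Complex.ofReal_tsum, (h.norm s).tsum_eq, Complex.ofReal_one]
  simp only [e1, e2, mul_one] at h1 h2
  have h3 : Integrable (fun E : ℝ => ∑' x, ‖La ψ E η x‖ ^ 2) := by
    have := h1.re
    simpa using this
  refine ⟨h3.const_mul η, ?_⟩
  rw [integral_const_mul]
  have h4 : (((∫ E : ℝ, ∑' x, ‖La ψ E η x‖ ^ 2 : ℝ)) : ℂ) =
      ((2 * Real.pi * (2 * η)⁻¹ : ℝ) : ℂ) := by
    rw [← integral_complex_ofReal, h2, integral_complex_ofReal, exp_val' _ (by positivity)]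
    push_cast
    ring
  rw [Complex.ofReal_inj] at h4
  rw [h4]
  field_simp

/-- **one Laplace parameter** -/
theorem one_eta (h : Sol d V a ψ) (p : Fin d → ℝ) (η : ℝ) (hη : 0 < η) (σ : ℝ) (B Ω : Set ℝ)
    (hB : MeasurableSet B) (hΩ : MeasurableSet Ω) (hBΩ : B ⊆ Ω) (g0 g1 : ℝ → ℝ) (s2 : ℝ)
    (hs2 : 0 < s2) (err ε vol : ℝ) (hvol : volume B < ⊤) (hvol2 : volume.real B ≤ vol)
    (herr : 0 ≤ err) (hg : ∀ E ∈ Ω, 0 ≤ g1 E ∧ 0 ≤ g0 E)
    (hg0 : IntegrableOn g0 Ω) (hg1 : AEStronglyMeasurable g1 (volume.restrict Ω))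
    (hprof : ∀ E ∈ B, ∀ p' : Fin d → ℝ, p' = p ∨ p' = 0 →
      ‖(η : ℂ) * ∑' x, ph p' (x - a) * ((‖La ψ (σ - E) η x‖ ^ 2 : ℝ) : ℂ) -
        ((g0 E / (1 + (∑ i, p' i ^ 2) / (η * s2) * (g1 E / g0 E ^ 2)) : ℝ) : ℂ)‖ ≤ err)
    (hup : (∫ E in Ω, g0 E) ≤ Real.pi) (hlow : Real.pi - ε ≤ ∫ E in B, g0 E) :
    ‖((2 * Real.pi * η : ℝ) : ℂ) * ∫ s in Ioi (0 : ℝ), ((Real.exp (-(2 * η) * s) : ℝ) : ℂ) *
      (cf ψ a p s - ((1 / Real.pi * ∫ E in Ω, g0 E * Real.exp (-(2 * g1 E / g0 E ^ 2 *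
        ((∑ i, p i ^ 2) / s2) * s)) : ℝ) : ℂ))‖ ≤ 2 * ε + 2 * (vol * err) := by
  obtain ⟨q, hq⟩ : ∃ q, q = ∑ i, p i ^ 2 := ⟨_, rfl⟩
  have hq0 : 0 ≤ q := by rw [hq]; exact Finset.sum_nonneg fun i _ => sq_nonneg _
  rw [← hq]
  obtain ⟨D, hD⟩ : ∃ D : ℝ → ℝ, D = fun E => 2 * g1 E / g0 E ^ 2 * (q / s2) := ⟨_, rfl⟩
  have hDm : AEStronglyMeasurable D (volume.restrict Ω) := by
    rw [hD]
    apply AEStronglyMeasurable.mul _ (by fun_prop)
    apply AEMeasurable.aestronglyMeasurable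
    exact (hg1.aemeasurable.const_mul 2).div (hg0.1.aemeasurable.pow_const 2)
  have hDE : ∀ E, 2 * g1 E / g0 E ^ 2 * (q / s2) = D E := fun E => by rw [hD]
  have hD0 : ∀ E ∈ Ω, 0 ≤ D E := by
    intro E hE
    rw [hD]
    have h1 := (hg E hE).1
    have h2 : 0 ≤ q / s2 := by positivity
    positivity
  simp only [hDE]
  -- the target
  obtain ⟨T, hT⟩ : ∃ T : ℝ → ℝ, T = fun E => g0 E / (1 + q / (η * s2) * (g1 E / g0 E ^ 2)) :=
    ⟨_, rfl⟩
  have hTD : ∀ E ∈ Ω, T E = 2 * η * (g0 E / (2 * η + D E)) := by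
    intro E hE
    have h1 := hD0 E hE
    have h2 : 1 + q / (η * s2) * (g1 E / g0 E ^ 2) = (2 * η + D E) / (2 * η) := by
      rw [hD, add_div, div_self (by positivity)]
      congr 1
      simp only [div_eq_mul_inv, mul_inv]
      ring
    rw [hT]
    simp only
    rw [h2, div_div_eq_mul_div]
    ring
  have hTg : ∀ E ∈ Ω, |T E| ≤ g0 E := by
    intro E hE
    obtain ⟨h1, h2⟩ := hg E hE
    have h3 := hD0 E hE
    rw [hTD E hE, abs_of_nonneg (by positivity), mul_div_assoc', div_le_iff₀ (by positivity)]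
    nlinarith [mul_nonneg h2 h3]
  have hTi : IntegrableOn T Ω := by
    refine Integrable.mono' hg0 ?_ ?_
    · rw [hT]
      apply AEMeasurable.aestronglyMeasurable
      exact hg0.1.aemeasurable.div (aemeasurable_const.add (aemeasurable_const.mul
        (hg1.aemeasurable.div (hg0.1.aemeasurable.pow_const 2))))
    · rw [ae_restrict_iff' hΩ]
      exact Filter.Eventually.of_forall fun E hE => by
        rw [Real.norm_eq_abs]
        exact hTg E hE
  -- Plancherel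
  obtain ⟨hU1, hU2⟩ := pl_main h η hη (fun x => ph p (x - a)) (fun x => ph_norm _ _)
  obtain ⟨hS1, hS2⟩ := tot h η hη
  obtain ⟨U, hU⟩ : ∃ U : ℝ → ℂ, U = fun E =>
      (η : ℂ) * ∑' x, ph p (x - a) * ((‖La ψ E η x‖ ^ 2 : ℝ) : ℂ) := ⟨_, rfl⟩
  obtain ⟨S, hS⟩ : ∃ S : ℝ → ℝ, S = fun E => η * ∑' x, ‖La ψ E η x‖ ^ 2 := ⟨_, rfl⟩
  have hUi : Integrable U := by
    rw [hU]
    exact hU1.const_mul _
  have hSi : Integrable S := by
    rw [hS]
    exact hS1
  have hUint : ∫ E, U (σ - E) = ((2 * Real.pi * η : ℝ) : ℂ) * ∫ s in Ioi (0 : ℝ),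
      ((Real.exp (-(2 * η) * s) : ℝ) : ℂ) * cf ψ a p s := by
    rw [integral_sub_left_eq_self U volume σ, hU, integral_const_mul, hU2]
    unfold cf
    push_cast
    ring
  have hSint : ∫ E, S (σ - E) = Real.pi := by
    rw [integral_sub_left_eq_self S volume σ, hS]
    exact hS2
  have hLs : ∀ E, Summable fun x => ‖La ψ E η x‖ ^ 2 := by
    intro E
    have h1 := La_sum h E η hη
    simpa [norm_mul] using h1
  have hUS : ∀ E, ‖U (σ - E)‖ ≤ S (σ - E) := by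
    intro E
    rw [hU, hS]
    simp only
    rw [norm_mul, Complex.norm_real, Real.norm_of_nonneg hη.le]
    apply mul_le_mul_of_nonneg_left _ hη.le
    have h1 : Summable fun x => ‖ph p (x - a) * ((‖La ψ (σ - E) η x‖ ^ 2 : ℝ) : ℂ)‖ := by
      simp only [ph_sq]
      exact hLs _
    refine (norm_tsum_le_tsum_norm h1).trans (le_of_eq ?_)
    simp only [ph_sq]
  have hmain := split_int B Ω hB hΩ hBΩ (fun E => U (σ - E)) (fun E => S (σ - E)) T g0 err ε vol
    Real.pi (hUi.comp_sub_left σ) (hSi.comp_sub_left σ) hUS hSint hvol hvol2 herr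
    (fun E hE => by
      have h1 := hprof E hE p (Or.inl rfl)
      rw [← hq] at h1
      rw [hU, hT]
      exact h1)
    (fun E hE => by
      have h1 := hprof E hE 0 (Or.inr rfl)
      have e1 : ∑' x, ph (0 : Fin d → ℝ) (x - a) * ((‖La ψ (σ - E) η x‖ ^ 2 : ℝ) : ℂ) =
          ((∑' x, ‖La ψ (σ - E) η x‖ ^ 2 : ℝ) : ℂ) := by
        rw [Complex.ofReal_tsum]
        refine tsum_congr fun x => ?_
        unfold ph
        simp
      rw [e1] at h1
      simp only [Pi.zero_apply, ne_eq, OfNat.ofNat_ne_zero, not_false_eq_true, zero_pow,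
        Finset.sum_const_zero, zero_div, zero_mul, add_zero, div_one] at h1
      rw [← Complex.ofReal_mul, ← Complex.ofReal_sub, Complex.norm_real, Real.norm_eq_abs] at h1
      rw [hS]
      exact h1)
    hTg hTi hg0 hup hlow
  rw [hUint] at hmain
  -- the Laplace transform of the target
  have ht := tgt Ω hΩ g0 (fun E => max (D E) 0) hg0
    (hDm.aemeasurable.max aemeasurable_const).aestronglyMeasurable
    (fun E => le_max_right _ _) (2 * η) (by positivity)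
  have hmx : ∀ E ∈ Ω, max (D E) 0 = D E := fun E hE => max_eq_left (hD0 E hE)
  have ht1 : ∀ t : ℝ, (∫ E in Ω, g0 E * Real.exp (-(max (D E) 0 * t))) =
      ∫ E in Ω, g0 E * Real.exp (-(D E * t)) := by
    intro t
    refine setIntegral_congr_fun hΩ fun E hE => ?_
    simp only [hmx E hE]
  have ht2 : (∫ E in Ω, g0 E / (2 * η + max (D E) 0)) = ∫ E in Ω, g0 E / (2 * η + D E) := by
    refine setIntegral_congr_fun hΩ fun E hE => ?_
    simp only [hmx E hE]
  rw [ht2] at ht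
  simp only [ht1] at ht
  have hTint : (∫ E in Ω, T E) = 2 * η * ∫ t in Ioi (0 : ℝ), Real.exp (-(2 * η) * t) *
      ∫ E in Ω, g0 E * Real.exp (-(D E * t)) := by
    rw [ht, ← integral_const_mul]
    exact setIntegral_congr_fun hΩ fun E hE => hTD E hE
  rw [hTint] at hmain
  -- integrability
  have hei : IntegrableOn (fun t => Real.exp (-(2 * η) * t)) (Ioi (0 : ℝ)) :=
    exp_int' (2 * η) (by positivity)
  have i1 : IntegrableOn (fun s => ((Real.exp (-(2 * η) * s) : ℝ) : ℂ) * cf ψ a p s)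
      (Ioi (0 : ℝ)) := by
    refine Integrable.mono' hei ?_ ?_
    · exact AEStronglyMeasurable.mul (by fun_prop) (cf_meas h p _)
    · refine Filter.Eventually.of_forall fun s => ?_
      rw [norm_mul, Complex.norm_real, Real.norm_of_nonneg (Real.exp_pos _).le]
      exact mul_le_of_le_one_right (Real.exp_pos _).le (cf_le h p s)
  have i2 : IntegrableOn (fun s => Real.exp (-(2 * η) * s) *
      ∫ E in Ω, g0 E * Real.exp (-(D E * s))) (Ioi (0 : ℝ)) := by
    refine Integrable.mono' (hei.mul_const Real.pi) ?_ ?_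
    · exact AEStronglyMeasurable.mul (by fun_prop) (m_meas Ω g0 D hg0 hDm)
    · rw [ae_restrict_iff' measurableSet_Ioi]
      refine Filter.Eventually.of_forall fun s hs => ?_
      obtain ⟨b1, b2⟩ := m_bd Ω hΩ g0 D hg0 (fun E hE => (hg E hE).2) hD0 hDm s hs
      rw [Real.norm_of_nonneg (mul_nonneg (Real.exp_pos _).le b1)]
      exact mul_le_mul_of_nonneg_left (b2.trans hup) (Real.exp_pos _).le
  have hfin : (((2 * Real.pi * η : ℝ) : ℂ) * ∫ s in Ioi (0 : ℝ),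
      ((Real.exp (-(2 * η) * s) : ℝ) : ℂ) * (cf ψ a p s - ((1 / Real.pi *
        ∫ E in Ω, g0 E * Real.exp (-(D E * s)) : ℝ) : ℂ))) =
      (((2 * Real.pi * η : ℝ) : ℂ) * ∫ s in Ioi (0 : ℝ),
        ((Real.exp (-(2 * η) * s) : ℝ) : ℂ) * cf ψ a p s) -
      ((2 * η * ∫ t in Ioi (0 : ℝ), Real.exp (-(2 * η) * t) *
        ∫ E in Ω, g0 E * Real.exp (-(D E * t)) : ℝ) : ℂ) := by
    have e1 : ∀ s : ℝ, ((Real.exp (-(2 * η) * s) : ℝ) : ℂ) * (cf ψ a p s - ((1 / Real.pi *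
        ∫ E in Ω, g0 E * Real.exp (-(D E * s)) : ℝ) : ℂ)) =
        ((Real.exp (-(2 * η) * s) : ℝ) : ℂ) * cf ψ a p s - ((1 / Real.pi : ℝ) : ℂ) *
          ((Real.exp (-(2 * η) * s) * ∫ E in Ω, g0 E * Real.exp (-(D E * s)) : ℝ) : ℂ) := by
      intro s
      rw [Complex.ofReal_mul, Complex.ofReal_mul]
      ring
    have i3 : IntegrableOn (fun s => ((1 / Real.pi : ℝ) : ℂ) *
        ((Real.exp (-(2 * η) * s) * ∫ E in Ω, g0 E * Real.exp (-(D E * s)) : ℝ) : ℂ))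
        (Ioi (0 : ℝ)) := (i2.ofReal).const_mul _
    simp only [e1]
    rw [integral_sub i1 i3, integral_const_mul, integral_complex_ofReal, mul_sub]
    congr 1
    have hpi : (Real.pi : ℂ) ≠ 0 := by exact_mod_cast Real.pi_ne_zero
    rw [Complex.ofReal_mul (2 * η)]
    push_cast
    field_simp
  rw [hfin]
  exact hmain

end

end Pool.Agent.X133.QP
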