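import Pool.Agent.X133.QP.Fin3
import Pool.Agent.X133.GK.LL

/-! Diffusion of a particle started at a site, Gaussian potentials. -/

set_option autoImplicit false
set_option linter.unusedSectionVars false
set_option linter.unusedVariables false

open scoped BigOperators Topology
open MeasureTheory ProbabilityTheory Filter Set

namespace Pool.Agent.X133.QP

open Pool.Agent.W788.BK
open Pool.Agent.H4R2.LO (Zd)
open Pool.Agent.W788.BK.Num
open Pool.Agent.TH794.QD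
open Pool.Agent.TH794.QE
open Pool.Agent.TH794.HK
open Pool.Agent.X133.GA (Gr gr_Rs gr_exists ev_lin ev_exp)
open Pool.Agent.X133.GK

theorem finPG (hES : S_ES) (hTH : S_THIRD) (hFL : S_FLUCT) (hIN : S_INV)
    (hSU : S_SUP) (hQB : S_QB) (hLO : S_LOW) (hAD : S_ADM) (hFA : S_FAC) (hO : S_OSC)
    (d : ℕ) (hd : 3 ≤ d) (φ : ℝ → ℝ) (hφ : Continuous φ) (hφs : HasCompactSupport φ)
    (ε A : ℝ) (hε : 0 < ε) (hA : 0 < A) :
    ∃ σ₀ : ℝ, 0 < σ₀ ∧ ∀ σ : ℝ, 0 < σ → σ ≤ σ₀ →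
      ∃ G : Set (Zd d → ℝ), MeasurableSet G ∧
        1 - Real.exp (-σ ^ (-(1 / 1200) : ℝ)) ≤
          (Measure.infinitePi fun _ : Zd d => gaussianReal 0 1).real G ∧
        ∀ ω ∈ G, ∀ a : Zd d, ‖a‖ ≤ Real.exp (σ ^ (-(1 / 1200) : ℝ)) →
          ∀ s : ℝ, σ ^ (103 / 51 : ℝ) ≤ s → s ≤ σ ^ (151 / 75 : ℝ) →
          ConclP d (fun x => 2 * d + σ * ω x) a (Set.Icc (-(2 * d : ℝ)) (2 * d)) φ A ε σ s 1
            (fun E => (GF (F0 d) (E : ℂ)).im) (fun E => (GF (F1 d) (E : ℂ)).im) := by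
  obtain ⟨n, δ, hδ, habs⟩ := qp_abs φ hφ hφs ε hε
  obtain ⟨hlow, htot⟩ := mass3 hO d hd
  obtain ⟨κ, hκ, hκ1, hmass⟩ := hlow (δ / 4) (by positivity)
  obtain ⟨⟨m, hm, hl⟩, hEng⟩ := engKv3 hES hTH hFL hIN hSU hQB hLO hAD hFA hO d hd κ hκ hκ1
  have hd0 : (0 : ℝ) < d := by
    have : 0 < d := by omega
    exact_mod_cast this
  obtain ⟨Y0, hY0, hgp⟩ := gProf d (by omega) (fun E => |E| ≤ 2 * d - κ)
    (fun E => GF (F0 d) (E : ℂ)) (fun E => GF (F1 d) (E : ℂ)) (2 * A) (by positivity)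
    (hEng 1 (2 * (2 * (2 * A))) one_pos (by positivity)) (fun E hE => by
      obtain ⟨h1, h2⟩ := hl E hE
      exact ⟨by linarith, by linarith, h2⟩)
  have hev : ∀ᶠ c in 𝓝[>] (0 : ℝ),
      ((4 * (d : ℝ)) * c ^ (1 / 310 : ℝ) ≤ δ / 4) ∧ (2 * c ^ (1 / 2550 : ℝ) ≤ 1) ∧
      (((n : ℝ) + 1) * c ^ (1 / 1200 : ℝ) ≤ 1) ∧ (1 * c ^ (1 : ℝ) ≤ Real.exp (-Y0)) := by
    filter_upwards [Pool.Agent.X133.LL.ev_pow (4 * (d : ℝ)) (δ / 4) (1 / 310) (by positivity)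
      (by norm_num),
      Pool.Agent.X133.LL.ev_pow 2 1 (1 / 2550) one_pos (by norm_num),
      Pool.Agent.X133.LL.ev_pow ((n : ℝ) + 1) 1 (1 / 1200) one_pos (by norm_num),
      Pool.Agent.X133.LL.ev_pow 1 (Real.exp (-Y0)) 1 (Real.exp_pos _) one_pos] with c h1 h2 h3 h4
    exact ⟨h1, h2, h3, h4⟩
  obtain ⟨σ₀, hσ₀, hev2⟩ := mem_nhdsGT_iff_exists_Ioc_subset.1 hev
  refine ⟨σ₀, hσ₀, fun σ hσ hσσ₀ => ?_⟩
  obtain ⟨n1, n2, n3, n4⟩ := hev2 ⟨hσ, hσσ₀⟩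
  rw [one_mul, Real.rpow_one] at n4
  obtain ⟨Y, hY⟩ : ∃ Y, Y = -Real.log σ := ⟨_, rfl⟩
  have hYY0 : Y0 ≤ Y := by
    have h1 := Real.log_le_log hσ n4
    rw [Real.log_exp] at h1
    linarith
  have hσe : Real.exp (-Y) = σ := by rw [hY, neg_neg, Real.exp_log hσ]
  have hpow : ∀ p : ℝ, σ ^ p = Real.exp (-p * Y) := by
    intro p
    rw [Real.rpow_def_of_pos hσ, hY]
    congr 1
    ring
  have hσ2 : Real.exp (-2 * Y) = σ ^ 2 := by
    rw [← hσe, ← Real.exp_nat_mul]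
    congr 1
    push_cast
    ring
  have hpr : Real.exp (1 / 1200 * Y) = σ ^ (-(1 / 1200) : ℝ) := by
    rw [hpow]
    congr 1
    ring
  obtain ⟨G, hG, hP, hL⟩ := hgp Y hYY0
  rw [hpr] at hP
  simp only [hpr] at hL
  have hmn : Measurable fun (ξ : Zd d → ℝ) (x : Zd d) => -ξ x :=
    measurable_pi_lambda _ fun x => (measurable_pi_apply x).neg
  refine ⟨(fun ξ x => -ξ x) ⁻¹' G, hmn hG, ?_, ?_⟩
  · have hG1P : (Measure.infinitePi fun _ : Zd d => gaussianReal 0 1).real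
        ((fun ξ x => -ξ x) ⁻¹' G) =
        (Measure.infinitePi fun _ : Zd d => gaussianReal 0 1).real G := by
      conv_rhs => rw [← law_neg d]
      rw [map_measureReal_apply hmn hG]
    rw [hG1P]
    exact hP
  intro ω hω a ha s hs1 hs2 ψ hψ p hp
  have h2 : (fun x => -ω x) ∈ G := hω
  have hs0 : 0 < s := lt_of_lt_of_le (by positivity) hs1
  have hsc1 : 2 * σ ^ (101 / 50 : ℝ) ≤ s := by
    have h1 : σ ^ (101 / 50 : ℝ) = σ ^ (103 / 51 : ℝ) * σ ^ (1 / 2550 : ℝ) := by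
      rw [← Real.rpow_add hσ]
      congr 1
      norm_num
    have h2 : 0 < σ ^ (103 / 51 : ℝ) := by positivity
    calc 2 * σ ^ (101 / 50 : ℝ) = σ ^ (103 / 51 : ℝ) * (2 * σ ^ (1 / 2550 : ℝ)) := by
          rw [h1]; ring
      _ ≤ σ ^ (103 / 51 : ℝ) * 1 := by gcongr
      _ ≤ s := by rw [mul_one]; exact hs1
  have hsc2 : ((n : ℝ) + 1) * s ≤ σ ^ (161 / 80 : ℝ) := by
    have h1 : σ ^ (151 / 75 : ℝ) = σ ^ (161 / 80 : ℝ) * σ ^ (1 / 1200 : ℝ) := by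
      rw [← Real.rpow_add hσ]
      congr 1
      norm_num
    have h2 : 0 < σ ^ (161 / 80 : ℝ) := by positivity
    calc ((n : ℝ) + 1) * s ≤ ((n : ℝ) + 1) * σ ^ (151 / 75 : ℝ) := by gcongr
      _ = σ ^ (161 / 80 : ℝ) * (((n : ℝ) + 1) * σ ^ (1 / 1200 : ℝ)) := by rw [h1]; ring
      _ ≤ σ ^ (161 / 80 : ℝ) * 1 := by gcongr
      _ = _ := mul_one _
  have hsub : Bd3 d κ ⊆ Set.Icc (-(2 * d : ℝ)) (2 * d) := by
    intro E hE
    have h1 : |E| ≤ 2 * d - κ := hE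
    exact abs_le.1 (by linarith)
  have hcont : ∀ F : ℝ → ℂ, (∀ z z' : ℂ, 0 ≤ z.im → 0 ≤ z'.im →
      ‖GF F z - GF F z'‖ ≤ CH d * ‖z - z'‖ ^ (1 / 8 : ℝ)) →
      ContinuousOn (fun E : ℝ => (GF F (E : ℂ)).im) (Set.Icc (-(2 * d : ℝ)) (2 * d)) := by
    intro F hF
    refine hol_cont _ (fun E : ℝ => GF F (E : ℂ)) (CH d) fun E _ E' _ => ?_
    have h1 := hF (E : ℂ) (E' : ℂ) (by simp) (by simp)
    rwa [← Complex.ofReal_sub, Complex.norm_real, Real.norm_eq_abs] at h1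
  have hvolI : volume.real (Bd3 d κ) ≤ 4 * d := by
    calc volume.real (Bd3 d κ) ≤ volume.real (Set.Icc (-(2 * d : ℝ)) (2 * d)) :=
          measureReal_mono hsub (by rw [Real.volume_Icc]; exact ENNReal.ofReal_ne_top)
      _ = 4 * d := by
          rw [Real.volume_real_Icc_of_le (by linarith)]
          ring
  have hp0 : 0 ≤ ∑ i, p i ^ 2 := Finset.sum_nonneg fun i _ => sq_nonneg _
  have key := habs d (fun x => 2 * d + σ * ω x) a ψ hψ p s hs0 (2 * d) (Bd3 d κ)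
    (Set.Icc (-(2 * d : ℝ)) (2 * d)) (Bd3_meas d κ) measurableSet_Icc hsub
    (fun E => (GF (F0 d) (E : ℂ)).im) (fun E => (GF (F1 d) (E : ℂ)).im) (σ ^ 2 * 1) (by positivity)
    (σ ^ (1 / 310 : ℝ)) (δ / 4) (4 * d)
    (lt_of_le_of_lt (measure_mono hsub) (by rw [Real.volume_Icc]; exact ENNReal.ofReal_lt_top))
    hvolI (by positivity)
    (fun E _ => ⟨(GF_im hO d hd (E : ℂ) (by simp)).1,
      (GF_im hO d hd (E : ℂ) (by simp)).1.trans (GF_im hO d hd (E : ℂ) (by simp)).2⟩)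
    ((hcont _ (hol0 hO d hd)).integrableOn_compact isCompact_Icc)
    ((hcont _ (hol1 hO d hd)).aestronglyMeasurable measurableSet_Icc)
    (fun j hj E hE p' hp' => by
      have hjn : (j : ℝ) ≤ n := by exact_mod_cast hj
      have hj0 : (0 : ℝ) ≤ j := Nat.cast_nonneg _
      obtain ⟨η, hη⟩ : ∃ η, η = ((j : ℝ) + 1) * s / 2 := ⟨_, rfl⟩
      have hη1 : s / 2 ≤ η := by
        rw [hη]
        nlinarith
      have hη2 : η ≤ σ ^ (161 / 80 : ℝ) := by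
        rw [hη]
        have h1 : ((j : ℝ) + 1) * s ≤ ((n : ℝ) + 1) * s := by gcongr
        have h2 : 0 ≤ ((j : ℝ) + 1) * s := by positivity
        linarith
      have hη0 : 0 < η := by linarith
      have hη3 : σ ^ (101 / 50 : ℝ) ≤ η := by linarith
      rw [← hη]
      have hRs : Rs d (fun x => 2 * d + (fun x => σ * ω x) x) a (2 * d - E) η
          (fun x => Complex.I * La ψ (2 * d - E) η x) :=
        ⟨La_sum hψ _ η hη0, La_eq hψ _ η hη0⟩
      have hgr := rs_gr (V := fun x => Real.exp (-Y) * (fun x => -ω x) x)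
        (ω := fun x => σ * ω x) hRs (fun x => by
          simp only
          rw [hσe]
          ring)
      rw [sub_sub_cancel] at hgr
      have hpp : ∑ i, p' i ^ 2 ≤ 2 * A * (η * σ ^ 2) := by
        have h1 : A * (σ ^ 2 * s) ≤ 2 * A * (η * σ ^ 2) := by
          calc A * (σ ^ 2 * s) = 2 * A * (s / 2 * σ ^ 2) := by ring
            _ ≤ 2 * A * (η * σ ^ 2) := by gcongr
        rcases hp' with h | h
        · rw [h]
          exact hp.trans h1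
        · rw [h]
          refine le_trans (le_of_eq ?_) (le_trans (by positivity : (0 : ℝ) ≤ A * (σ ^ 2 * s)) h1)
          simp
      have hmain := hL _ h2 a ha E η hE (by rw [hpow] at hη3; exact hη3)
        (by rw [hpow] at hη2; exact hη2) _ hgr p' (by rw [hσ2]; exact hpp)
      rw [conj_sum, hσ2] at hmain
      have hI : ∀ x, ‖Complex.I * La ψ (2 * d - E) η x‖ = ‖La ψ (2 * d - E) η x‖ := by
        intro x
        rw [norm_mul, Complex.norm_I, one_mul]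
      simp only [hI] at hmain
      rw [mul_one, hpow (1 / 310)]
      exact hmain)
    htot.le hmass (by linarith)
  have hrate : ∀ E t : ℝ, 2 * (GF (F1 d) (E : ℂ)).im / (GF (F0 d) (E : ℂ)).im ^ 2 *
      ((∑ i, p i ^ 2) / (σ ^ 2 * 1)) * t = 2 * (GF (F1 d) (E : ℂ)).im /
        (1 * (GF (F0 d) (E : ℂ)).im ^ 2) * (∑ i, p i ^ 2) / σ ^ 2 * t := by
    intro E t
    rw [mul_one, one_mul]
    simp only [div_eq_mul_inv, mul_inv]
    ring
  simp only [hrate] at key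
  exact key

end Pool.Agent.X133.QP
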