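import Pool.Agent.TH794.QD.Lap
import Pool.Agent.TH794.QD.Planch
import Pool.Agent.TH794.HK.LatK

/-! Plancherel for the evolution of a site. -/

set_option autoImplicit false
set_option linter.unusedSectionVars false

open scoped BigOperators Topology ENNReal FourierTransform
open MeasureTheory Filter Set

namespace Pool.Agent.X133.QP

open Pool.Agent.H4R2.LO (Zd)
open Pool.Agent.TH794.QD
open Pool.Agent.TH794.HK (ph ph_norm)

variable {d : ℕ}

theorem fou (h : ℝ → ℂ) (t : ℝ) :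
    ∫ E : ℝ, Complex.exp (-(Complex.I * t * E)) * h E = 𝓕 h ((2 * Real.pi)⁻¹ * t) := by
  rw [Real.fourier_eq']
  refine integral_congr_ae (Eventually.of_forall fun E => ?_)
  simp only [smul_eq_mul]
  congr 2
  have hpi : (Real.pi : ℂ) ≠ 0 := by exact_mod_cast Real.pi_ne_zero
  simp only [RCLike.inner_apply, conj_trivial]
  push_cast
  field_simp

theorem scal (F : ℝ → ℝ≥0∞) (hF : Measurable F) :
    ∫⁻ t : ℝ, F ((2 * Real.pi)⁻¹ * (-t)) = ENNReal.ofReal (2 * Real.pi) * ∫⁻ ξ : ℝ, F ξ := by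
  have hp : (0 : ℝ) < 2 * Real.pi := by positivity
  have h0 : -(2 * Real.pi)⁻¹ ≠ 0 := by
    rw [neg_ne_zero]
    positivity
  have h1 := Real.smul_map_volume_mul_left h0
  have h3 : ∀ t : ℝ, (2 * Real.pi)⁻¹ * (-t) = -(2 * Real.pi)⁻¹ * t := fun t => by ring
  simp_rw [h3]
  have h2 : ∫⁻ ξ : ℝ, F ξ = ENNReal.ofReal (2 * Real.pi)⁻¹ *
      ∫⁻ t : ℝ, F (-(2 * Real.pi)⁻¹ * t) := by
    conv_lhs => rw [← h1]
    rw [lintegral_smul_measure, lintegral_map hF (measurable_const_mul _), smul_eq_mul,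
      abs_neg, abs_of_pos (by positivity)]
  rw [h2, ← mul_assoc, ← ENNReal.ofReal_mul hp.le, mul_inv_cancel₀ hp.ne']
  simp

/-- the damped evolution -/
noncomputable def hh (ψ : ℝ → Zd d → ℂ) (t : ℝ) (x : Zd d) (s : ℝ) : ℂ :=
  (Ioi (0 : ℝ)).indicator (fun s => ((Real.exp (-t * s) : ℝ) : ℂ) * ψ s x) s

theorem La_fou (ψ : ℝ → Zd d → ℂ) (E t : ℝ) (x : Zd d) :
    La ψ E t x = 𝓕 (hh ψ t x) ((2 * Real.pi)⁻¹ * (-E)) := by
  rw [← fou]
  unfold La
  rw [← integral_indicator measurableSet_Ioi]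
  refine integral_congr_ae (Eventually.of_forall fun s => ?_)
  simp only [hh, Set.indicator_apply]
  split_ifs
  · rw [← mul_assoc]
    congr 1
    unfold ew
    rw [Complex.ofReal_exp, ← Complex.exp_add]
    congr 1
    push_cast
    ring
  · rw [mul_zero]

section

variable {V : Zd d → ℝ} {a : Zd d} {ψ : ℝ → Zd d → ℂ}

theorem hh_norm (h : Sol d V a ψ) (t : ℝ) (x : Zd d) (s : ℝ) :
    ‖hh ψ t x s‖ ^ 2 = (Ioi (0 : ℝ)).indicator
      (fun s => Real.exp (-(2 * t) * s) * ‖ψ s x‖ ^ 2) s := by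
  simp only [hh, Set.indicator_apply]
  split_ifs
  · rw [norm_mul, Complex.norm_real, Real.norm_of_nonneg (Real.exp_pos _).le, mul_pow,
      ← Real.exp_nat_mul]
    congr 2
    push_cast
    ring
  · simp

theorem sq_int (h : Sol d V a ψ) (t : ℝ) (ht : 0 < t) (x : Zd d) :
    IntegrableOn (fun s => Real.exp (-(2 * t) * s) * ‖ψ s x‖ ^ 2) (Ioi (0 : ℝ)) := by
  refine Integrable.mono' (exp_int (2 * t) (by positivity)) ?_ ?_
  · exact (Continuous.mul (by fun_prop) ((h.cont x).norm.pow 2)).aestronglyMeasurable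
  · refine Filter.Eventually.of_forall fun s => ?_
    rw [norm_mul, Real.norm_eq_abs, abs_of_pos (Real.exp_pos _), norm_pow, norm_norm]
    exact mul_le_of_le_one_right (Real.exp_pos _).le (pow_le_one₀ (norm_nonneg _) (h.le_one s x))

theorem hh_meas (h : Sol d V a ψ) (t : ℝ) (x : Zd d) : AEStronglyMeasurable (hh ψ t x) volume := by
  have : Continuous fun s => ((Real.exp (-t * s) : ℝ) : ℂ) * ψ s x :=
    Continuous.mul (by fun_prop) (h.cont x)
  exact this.aestronglyMeasurable.indicator measurableSet_Ioi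

theorem hh_int (h : Sol d V a ψ) (t : ℝ) (ht : 0 < t) (x : Zd d) : Integrable (hh ψ t x) := by
  refine Integrable.mono' ((integrable_indicator_iff measurableSet_Ioi).2 (exp_int t ht))
    (hh_meas h t x) ?_
  refine Filter.Eventually.of_forall fun s => ?_
  simp only [hh, Set.indicator_apply]
  split_ifs
  · rw [norm_mul, Complex.norm_real, Real.norm_of_nonneg (Real.exp_pos _).le]
    exact mul_le_of_le_one_right (Real.exp_pos _).le (h.le_one s x)
  · simp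

theorem hh_sq (h : Sol d V a ψ) (t : ℝ) (ht : 0 < t) (x : Zd d) :
    Integrable (fun s => ‖hh ψ t x s‖ ^ 2) := by
  have h1 : (fun s => ‖hh ψ t x s‖ ^ 2) = (Ioi (0 : ℝ)).indicator
      (fun s => Real.exp (-(2 * t) * s) * ‖ψ s x‖ ^ 2) := by
    funext s
    exact hh_norm h t x s
  rw [h1]
  exact (integrable_indicator_iff measurableSet_Ioi).2 (sq_int h t ht x)

/-- **Plancherel at a site** -/
theorem site (h : Sol d V a ψ) (t : ℝ) (ht : 0 < t) (x : Zd d) :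
    Integrable (fun E : ℝ => ‖La ψ E t x‖ ^ 2) ∧
    ∫ E : ℝ, ‖La ψ E t x‖ ^ 2 =
      2 * Real.pi * ∫ s in Ioi (0 : ℝ), Real.exp (-(2 * t) * s) * ‖ψ s x‖ ^ 2 := by
  have h1 := hh_int h t ht x
  have h2 : MemLp (hh ψ t x) 2 := (memLp_two_iff_integrable_sq_norm (hh_meas h t x)).2
    (hh_sq h t ht x)
  have h3 := plancherel (hh ψ t x) h1 h2
  have hc : Continuous (𝓕 (hh ψ t x)) := by
    exact VectorFourier.fourierIntegral_continuous Real.continuous_fourierChar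
      (by exact continuous_inner) h1
  have h4 := scal (fun ξ => ‖𝓕 (hh ψ t x) ξ‖ₑ ^ 2) (by fun_prop)
  simp only [← La_fou] at h4
  rw [h3] at h4
  have hcL : Continuous fun E : ℝ => La ψ E t x := by
    have : (fun E : ℝ => La ψ E t x) = fun E => 𝓕 (hh ψ t x) ((2 * Real.pi)⁻¹ * (-E)) := by
      funext E
      exact La_fou ψ E t x
    rw [this]
    fun_prop
  have h5 : ∀ z : ℂ, ‖z‖ₑ ^ 2 = ENNReal.ofReal (‖z‖ ^ 2) := by
    intro z
    rw [ENNReal.ofReal_pow (norm_nonneg _), ofReal_norm]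
  simp only [h5] at h4
  rw [← ofReal_integral_eq_lintegral_ofReal (hh_sq h t ht x)
    (Filter.Eventually.of_forall fun s => sq_nonneg _)] at h4
  have h6 : ∫ s, ‖hh ψ t x s‖ ^ 2 = ∫ s in Ioi (0 : ℝ), Real.exp (-(2 * t) * s) * ‖ψ s x‖ ^ 2 := by
    rw [← integral_indicator measurableSet_Ioi]
    exact integral_congr_ae (Filter.Eventually.of_forall fun s => hh_norm h t x s)
  rw [h6, ← ENNReal.ofReal_mul (by positivity)] at h4
  have hint : Integrable (fun E : ℝ => ‖La ψ E t x‖ ^ 2) := by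
    refine ⟨(hcL.norm.pow 2).aestronglyMeasurable, ?_⟩
    rw [hasFiniteIntegral_iff_ofReal (Filter.Eventually.of_forall fun s => sq_nonneg _)]
    rw [h4]
    exact ENNReal.ofReal_lt_top
  refine ⟨hint, ?_⟩
  rw [← ofReal_integral_eq_lintegral_ofReal hint
    (Filter.Eventually.of_forall fun s => sq_nonneg _)] at h4
  have h7 : 0 ≤ ∫ s in Ioi (0 : ℝ), Real.exp (-(2 * t) * s) * ‖ψ s x‖ ^ 2 :=
    integral_nonneg fun s => by positivity
  exact (ENNReal.ofReal_eq_ofReal_iff (integral_nonneg fun s => sq_nonneg _) (by positivity)).1 h4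

theorem c_sum (h : Sol d V a ψ) (t : ℝ) (ht : 0 < t) :
    Summable fun x => ∫ s in Ioi (0 : ℝ), Real.exp (-(2 * t) * s) * ‖ψ s x‖ ^ 2 := by
  refine summable_of_sum_le (c := (2 * t)⁻¹) (fun x => integral_nonneg fun s => by positivity)
    fun F => ?_
  rw [← integral_finset_sum _ fun x _ => sq_int h t ht x, ← exp_val (2 * t) (by positivity)]
  apply setIntegral_mono_on
  · exact integrable_finset_sum _ fun x _ => sq_int h t ht x
  · exact exp_int (2 * t) (by positivity)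
  · exact measurableSet_Ioi
  · intro s _
    rw [← Finset.mul_sum]
    apply mul_le_of_le_one_right (Real.exp_pos _).le
    exact sum_le_hasSum F (fun x _ => sq_nonneg _) (h.norm s)

theorem int_tsum {ι : Type*} [Countable ι] {μ : Measure ℝ} {F : ι → ℝ → ℂ}
    (h1 : ∀ i, Integrable (F i) μ) (h2 : Summable fun i => ∫ a, ‖F i a‖ ∂μ) :
    Integrable (fun a => ∑' i, F i a) μ := by
  refine ⟨(AEMeasurable.tsum fun i => (h1 i).1.aemeasurable).aestronglyMeasurable, ?_⟩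
  have h3 : ∫⁻ a, ‖∑' i, F i a‖ₑ ∂μ ≤ ∫⁻ a, ∑' i, ‖F i a‖ₑ ∂μ :=
    lintegral_mono fun a => enorm_tsum_le_tsum_enorm
  refine lt_of_le_of_lt h3 ?_
  rw [lintegral_tsum fun i => (h1 i).1.enorm]
  have h4 : ∀ i, ∫⁻ a, ‖F i a‖ₑ ∂μ = ENNReal.ofReal (∫ a, ‖F i a‖ ∂μ) := by
    intro i
    rw [ofReal_integral_norm_eq_lintegral_enorm (h1 i)]
  simp only [h4]
  rw [← ENNReal.ofReal_tsum_of_nonneg (fun i => integral_nonneg fun a => norm_nonneg _) h2]
  exact ENNReal.ofReal_lt_top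

/-- **Plancherel for the characteristic function of the position** -/
theorem pl_main (h : Sol d V a ψ) (t : ℝ) (ht : 0 < t) (w : Zd d → ℂ) (hw : ∀ x, ‖w x‖ = 1) :
    Integrable (fun E : ℝ => ∑' x, w x * ((‖La ψ E t x‖ ^ 2 : ℝ) : ℂ)) ∧
    ∫ E : ℝ, ∑' x, w x * ((‖La ψ E t x‖ ^ 2 : ℝ) : ℂ) =
      2 * Real.pi * ∫ s in Ioi (0 : ℝ), ((Real.exp (-(2 * t) * s) : ℝ) : ℂ) *
        ∑' x, w x * ((‖ψ s x‖ ^ 2 : ℝ) : ℂ) := by
  have hE1 : ∀ x, Integrable (fun E : ℝ => w x * ((‖La ψ E t x‖ ^ 2 : ℝ) : ℂ)) := fun x =>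
    ((site h t ht x).1.ofReal).const_mul _
  have hn : ∀ x (r : ℝ), 0 ≤ r → ‖w x * ((r : ℝ) : ℂ)‖ = r := by
    intro x r hr
    rw [norm_mul, hw, one_mul, Complex.norm_real, Real.norm_of_nonneg hr]
  have hE2 : Summable fun x => ∫ E : ℝ, ‖w x * ((‖La ψ E t x‖ ^ 2 : ℝ) : ℂ)‖ := by
    have h1 : ∀ x, ∫ E : ℝ, ‖w x * ((‖La ψ E t x‖ ^ 2 : ℝ) : ℂ)‖ =
        2 * Real.pi * ∫ s in Ioi (0 : ℝ), Real.exp (-(2 * t) * s) * ‖ψ s x‖ ^ 2 := by
      intro x
      rw [← (site h t ht x).2]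
      exact integral_congr_ae (Filter.Eventually.of_forall fun E => hn x _ (sq_nonneg _))
    simp only [h1]
    exact (c_sum h t ht).mul_left _
  have hs1 : ∀ x, IntegrableOn (fun s : ℝ => w x * ((Real.exp (-(2 * t) * s) * ‖ψ s x‖ ^ 2 : ℝ) : ℂ))
      (Ioi (0 : ℝ)) := fun x => ((sq_int h t ht x).ofReal).const_mul _
  have hs2 : Summable fun x => ∫ s in Ioi (0 : ℝ),
      ‖w x * ((Real.exp (-(2 * t) * s) * ‖ψ s x‖ ^ 2 : ℝ) : ℂ)‖ := by
    have h1 : ∀ x, ∫ s in Ioi (0 : ℝ), ‖w x * ((Real.exp (-(2 * t) * s) * ‖ψ s x‖ ^ 2 : ℝ) : ℂ)‖ =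
        ∫ s in Ioi (0 : ℝ), Real.exp (-(2 * t) * s) * ‖ψ s x‖ ^ 2 := by
      intro x
      exact integral_congr_ae (Filter.Eventually.of_forall fun s => hn x _ (by positivity))
    simp only [h1]
    exact c_sum h t ht
  have e1 := integral_tsum_of_summable_integral_norm hE1 hE2
  have e2 := integral_tsum_of_summable_integral_norm hs1 hs2
  have e3 : ∀ s : ℝ, ∑' x, w x * ((Real.exp (-(2 * t) * s) * ‖ψ s x‖ ^ 2 : ℝ) : ℂ) =
      ((Real.exp (-(2 * t) * s) : ℝ) : ℂ) * ∑' x, w x * ((‖ψ s x‖ ^ 2 : ℝ) : ℂ) := by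
    intro s
    rw [← tsum_mul_left]
    refine tsum_congr fun x => ?_
    rw [Complex.ofReal_mul]
    ring
  simp only [e3] at e2
  have e4 : ∀ x, ∫ E : ℝ, w x * ((‖La ψ E t x‖ ^ 2 : ℝ) : ℂ) = 2 * Real.pi *
      ∫ s in Ioi (0 : ℝ), w x * ((Real.exp (-(2 * t) * s) * ‖ψ s x‖ ^ 2 : ℝ) : ℂ) := by
    intro x
    rw [integral_const_mul, integral_const_mul, integral_complex_ofReal, integral_complex_ofReal,
      (site h t ht x).2]
    push_cast
    ring
  refine ⟨?_, ?_⟩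
  · exact int_tsum hE1 hE2
  · rw [← e1, tsum_congr e4, tsum_mul_left, e2]

end

end Pool.Agent.X133.QP
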